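import Pool.Agent.Helper63.HM.Hall
import Pool.Agent.Helper8.ManyLines.Core

/-!
# MP_47cd0b: rank four from weights on pairs of points (assembly)

Every user `q ∈ X` spreads its weight evenly over allowed pairs `(c, d)` of points of `A`; resources are
the lines `q ⊔ c`, `q ⊔ d` and the plane `q ⊔ c ⊔ d`.
-/

set_option autoImplicit false
set_option linter.unusedSectionVars false

namespace Pool.Agent.Helper63.CR

open Finset Pool.Agent.Helper28.BPack Pool.Agent.Helper61.Motz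

variable {L : Type} [Lattice L] [BoundedOrder L] [Finite L] [IsUpperModularLattice L]

open Classical in
/-- allowed pairs of `q` -/
noncomputable def Pr (A : Finset L) (al : L → L → L → Prop) (q : L) : Finset (L × L) :=
  (A ×ˢ A).filter (fun p => al q p.1 p.2)

open Classical in
/-- load of a line -/
noncomputable def ld1 (X A : Finset L) (al : L → L → L → Prop) (w : L → ℝ) (l : L) : ℝ :=
  ∑ q ∈ X.filter (· ≤ l), w q * ((Pr A al q).filter (fun p => q ⊔ p.1 = l ∨ q ⊔ p.2 = l)).card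

open Classical in
/-- load of a plane -/
noncomputable def ld2 (X A : Finset L) (al : L → L → L → Prop) (w : L → ℝ) (H : L) : ℝ :=
  ∑ q ∈ X.filter (· ≤ H), w q * ((Pr A al q).filter (fun p => q ⊔ p.1 ⊔ p.2 = H)).card

theorem mem_Pr {A : Finset L} {al : L → L → L → Prop} {q : L} {p : L × L} :
    p ∈ Pr A al q ↔ p.1 ∈ A ∧ p.2 ∈ A ∧ al q p.1 p.2 := by
  classical
  simp only [Pr, mem_filter, mem_product]
  tauto

/-- **Rainbow choice of pairs.** -/
theorem pairs_of_weights {X A : Finset L} (al : L → L → L → Prop)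
    (hal : ∀ q ∈ X, ∀ c ∈ A, ∀ d ∈ A, al q c d → rk (q ⊔ c) = 2 ∧ rk (q ⊔ d) = 2 ∧
      rk (q ⊔ c ⊔ d) = 3 ∧ q ⊔ c ≠ q ⊔ d)
    (w : L → ℝ) (hw : ∀ q ∈ X, 0 < w q)
    (hZ : ∀ q ∈ X, 1 ≤ w q * (Pr A al q).card)
    (hload : ∀ q ∈ X, ∀ c ∈ A, ∀ d ∈ A, al q c d →
      ld1 X A al w (q ⊔ c) + ld1 X A al w (q ⊔ d) + ld2 X A al w (q ⊔ c ⊔ d) ≤ 1) :
    ∃ c d : L → L, (∀ q ∈ X, c q ∈ A ∧ d q ∈ A ∧ al q (c q) (d q)) ∧
      (∀ q ∈ X, ∀ q' ∈ X, q ⊔ c q = q' ⊔ c q' → q = q') ∧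
      (∀ q ∈ X, ∀ q' ∈ X, q ⊔ d q = q' ⊔ d q' → q = q') ∧
      (∀ q ∈ X, ∀ q' ∈ X, q ⊔ c q ≠ q' ⊔ d q') ∧
      (∀ q ∈ X, ∀ q' ∈ X, q ⊔ c q ⊔ d q = q' ⊔ c q' ⊔ d q' → q = q') := by
  classical
  have : Fintype L := Fintype.ofFinite L
  let Y := {q : L // q ∈ X}
  let V := Y × L × L
  let R : V → L → Prop := fun v r => r = v.1.1 ⊔ v.2.1 ∨ r = v.1.1 ⊔ v.2.2 ∨
    r = v.1.1 ⊔ v.2.1 ⊔ v.2.2
  let W : V → ℝ := fun v => if v.2 ∈ Pr A al v.1.1 then w v.1.1 else 0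
  have hW0 : ∀ v, 0 ≤ W v := by
    intro v
    simp only [W]
    split_ifs
    · exact (hw _ v.1.2).le
    · exact le_rfl
  have hWpos : ∀ v, 0 < W v → v.2 ∈ Pr A al v.1.1 := by
    intro v hv
    by_contra h
    simp only [W, if_neg h, lt_irrefl] at hv
  have hΛ : ∀ r, ∑ᶠ u ∈ {u | R u r}, W u =
      ∑ x : Y, ∑ p : L × L, if R (x, p) r then W (x, p) else 0 := by
    intro r
    rw [finsum_mem_def, finsum_eq_sum_of_fintype, Fintype.sum_prod_type]
    apply Finset.sum_congr rfl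
    intro x _
    apply Finset.sum_congr rfl
    intro p _
    by_cases h : R (x, p) r
    · rw [if_pos h, Set.indicator_of_mem (s := {u | R u r}) h]
    · rw [if_neg h, Set.indicator_of_notMem (s := {u | R u r}) h]
  have key : ∀ (r : L) (g : L → L × L → Prop),
      (∀ (x : Y) (p : L × L), p ∈ Pr A al x.1 → R (x, p) r → g x.1 p) →
      ∑ᶠ u ∈ {u | R u r}, W u ≤
        ∑ q ∈ X.filter (· ≤ r), w q * ((Pr A al q).filter (fun p => g q p)).card := by
    intro r g hg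
    rw [hΛ]
    have h1 : ∀ x : Y, (∑ p : L × L, if R (x, p) r then W (x, p) else 0) ≤
        if x.1 ≤ r then w x.1 * ((Pr A al x.1).filter (fun p => g x.1 p)).card else 0 := by
      intro x
      by_cases hx : x.1 ≤ r
      · rw [if_pos hx]
        have h2 : ∀ p : L × L, (if R (x, p) r then W (x, p) else 0) ≤
            if p ∈ (Pr A al x.1).filter (fun p => g x.1 p) then w x.1 else 0 := by
          intro p
          by_cases hp : p ∈ Pr A al x.1
          · by_cases hR : R (x, p) r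
            · have h3 := mem_filter.mpr ⟨hp, hg x p hp hR⟩
              rw [if_pos hR, if_pos h3]
              simp only [W, if_pos hp]
              exact le_rfl
            · rw [if_neg hR]
              split_ifs
              · exact (hw _ x.2).le
              · exact le_rfl
          · have h3 : W (x, p) = 0 := by simp only [W, if_neg hp]
            rw [h3, ite_self]
            split_ifs
            · exact (hw _ x.2).le
            · exact le_rfl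
        refine (Finset.sum_le_sum fun p _ => h2 p).trans ?_
        rw [Finset.sum_ite_mem, Finset.univ_inter, Finset.sum_const, nsmul_eq_mul, mul_comm]
      · rw [if_neg hx]
        apply le_of_eq
        apply Finset.sum_eq_zero
        intro p _
        rw [if_neg]
        rintro (h | h | h)
        · exact hx (h ▸ le_sup_left)
        · exact hx (h ▸ le_sup_left)
        · exact hx (h ▸ (le_sup_left.trans le_sup_left))
    refine (Finset.sum_le_sum fun x _ => h1 x).trans ?_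
    rw [Finset.sum_filter]
    exact le_of_eq (Finset.sum_subtype X (fun x => Iff.rfl) (fun q => if q ≤ r then
      w q * ((Pr A al q).filter (fun p => g q p)).card else 0)).symm
  have hL1 : ∀ r, rk r = 2 → ∑ᶠ u ∈ {u | R u r}, W u ≤ ld1 X A al w r := by
    intro r hr
    refine (key r (fun q p => q ⊔ p.1 = r ∨ q ⊔ p.2 = r) ?_).trans (le_of_eq (by
      unfold ld1; congr!))
    rintro x p hp (h | h | h)
    · exact Or.inl h.symm
    · exact Or.inr h.symm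
    · exfalso
      obtain ⟨h1, h2, h3⟩ := mem_Pr.mp hp
      have h4 := (hal x.1 x.2 p.1 h1 p.2 h2 h3).2.2.1
      have h5 : r = x.1 ⊔ p.1 ⊔ p.2 := h
      rw [← h5, hr] at h4
      omega
  have hL2 : ∀ r, rk r = 3 → ∑ᶠ u ∈ {u | R u r}, W u ≤ ld2 X A al w r := by
    intro r hr
    refine (key r (fun q p => q ⊔ p.1 ⊔ p.2 = r) ?_).trans (le_of_eq (by
      unfold ld2; congr!))
    rintro x p hp (h | h | h)
    · exfalso
      obtain ⟨h1, h2, h3⟩ := mem_Pr.mp hp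
      have h4 := (hal x.1 x.2 p.1 h1 p.2 h2 h3).1
      have h5 : r = x.1 ⊔ p.1 := h
      rw [← h5, hr] at h4
      omega
    · exfalso
      obtain ⟨h1, h2, h3⟩ := mem_Pr.mp hp
      have h4 := (hal x.1 x.2 p.1 h1 p.2 h2 h3).2.1
      have h5 : r = x.1 ⊔ p.2 := h
      rw [← h5, hr] at h4
      omega
    · exact h.symm
  obtain ⟨f, hf1, hf2, hf3⟩ := Pool.Agent.Helper63.HM.rainbow R (fun v : V => v.1) W hW0
    (by
      intro v hv
      obtain ⟨h1, h2, h3⟩ := mem_Pr.mp (hWpos v hv)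
      obtain ⟨k1, k2, k3, k4⟩ := hal v.1.1 v.1.2 v.2.1 h1 v.2.2 h2 h3
      have e1 : {q | R v q} = (({v.1.1 ⊔ v.2.1, v.1.1 ⊔ v.2.2, v.1.1 ⊔ v.2.1 ⊔ v.2.2} :
          Finset L) : Set L) := by
        ext r
        simp only [R, Set.mem_ofPred_eq, Finset.coe_insert, Finset.coe_singleton,
          Set.mem_insert_iff, Set.mem_singleton_iff]
      rw [e1, finsum_mem_coe_finset]
      have n1 : v.1.1 ⊔ v.2.1 ∉ ({v.1.1 ⊔ v.2.2, v.1.1 ⊔ v.2.1 ⊔ v.2.2} : Finset L) := by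
        rw [mem_insert, mem_singleton]
        rintro (h | h)
        · exact k4 h
        · rw [← h] at k3
          omega
      have n2 : v.1.1 ⊔ v.2.2 ∉ ({v.1.1 ⊔ v.2.1 ⊔ v.2.2} : Finset L) := by
        rw [mem_singleton]
        intro h
        rw [← h] at k3
        omega
      rw [Finset.sum_insert n1, Finset.sum_insert n2, Finset.sum_singleton]
      have := hload v.1.1 v.1.2 v.2.1 h1 v.2.2 h2 h3
      have := hL1 _ k1
      have := hL1 _ k2
      have := hL2 _ k3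
      linarith)
    (by
      intro x
      have e1 : ∑ᶠ v ∈ {v : V | v.1 = x}, W v = w x.1 * (Pr A al x.1).card := by
        rw [finsum_mem_def, finsum_eq_sum_of_fintype, Fintype.sum_prod_type,
          Finset.sum_eq_single x]
        · have h2 : ∀ p : L × L, Set.indicator {v : V | v.1 = x} W (x, p) =
              if p ∈ Pr A al x.1 then w x.1 else 0 := by
            intro p
            rw [Set.indicator_of_mem (show (x, p) ∈ {v : V | v.1 = x} from rfl)]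
          rw [Finset.sum_congr rfl fun p _ => h2 p, Finset.sum_ite_mem, Finset.univ_inter,
            Finset.sum_const, nsmul_eq_mul, mul_comm]
        · intro y _ hy
          apply Finset.sum_eq_zero
          intro p _
          exact Set.indicator_of_notMem (s := {v : V | v.1 = x}) (fun h => hy h) W
        · intro h
          exact absurd (mem_univ x) h
      rw [e1]
      exact hZ x.1 x.2)
  have hP : ∀ x : Y, (f x).1 = x ∧ (f x).2.1 ∈ A ∧ (f x).2.2 ∈ A ∧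
      al x.1 (f x).2.1 (f x).2.2 := by
    intro x
    have h1 := hf1 x
    obtain ⟨h2, h3, h4⟩ := mem_Pr.mp (hWpos _ (hf2 x))
    have h5 : (f x).1 = x := h1
    rw [h5] at h4
    exact ⟨h5, h2, h3, h4⟩
  have hR : ∀ x : Y, ∀ r, (r = x.1 ⊔ (f x).2.1 ∨ r = x.1 ⊔ (f x).2.2 ∨
      r = x.1 ⊔ (f x).2.1 ⊔ (f x).2.2) → R (f x) r := by
    intro x r h
    have h5 := (hP x).1
    simp only [R]
    rw [h5]
    exact h
  let c : L → L := fun q => if h : q ∈ X then (f ⟨q, h⟩).2.1 else q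
  let d : L → L := fun q => if h : q ∈ X then (f ⟨q, h⟩).2.2 else q
  have hc : ∀ q (h : q ∈ X), c q = (f ⟨q, h⟩).2.1 := fun q h => dif_pos h
  have hd : ∀ q (h : q ∈ X), d q = (f ⟨q, h⟩).2.2 := fun q h => dif_pos h
  refine ⟨c, d, ?_, ?_, ?_, ?_, ?_⟩
  · intro q hq
    rw [hc q hq, hd q hq]
    obtain ⟨-, h2, h3, h4⟩ := hP ⟨q, hq⟩
    exact ⟨h2, h3, h4⟩
  · intro q hq q' hq' e
    by_contra hne
    rw [hc q hq, hc q' hq'] at e
    refine hf3 ⟨q, hq⟩ ⟨q', hq'⟩ (fun h => hne (congrArg Subtype.val h)) _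
      ⟨hR _ _ (Or.inl rfl), hR _ _ (Or.inl e)⟩
  · intro q hq q' hq' e
    by_contra hne
    rw [hd q hq, hd q' hq'] at e
    refine hf3 ⟨q, hq⟩ ⟨q', hq'⟩ (fun h => hne (congrArg Subtype.val h)) _
      ⟨hR _ _ (Or.inr (Or.inl rfl)), hR _ _ (Or.inr (Or.inl e))⟩
  · intro q hq q' hq' e
    rw [hc q hq, hd q' hq'] at e
    by_cases hne : q = q'
    · subst hne
      obtain ⟨-, h2, h3, h4⟩ := hP ⟨q, hq⟩
      exact (hal q hq _ h2 _ h3 h4).2.2.2 e
    · refine hf3 ⟨q, hq⟩ ⟨q', hq'⟩ (fun h => hne (congrArg Subtype.val h)) _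
        ⟨hR _ _ (Or.inl rfl), hR _ _ (Or.inr (Or.inl e))⟩
  · intro q hq q' hq' e
    by_contra hne
    rw [hc q hq, hd q hq, hc q' hq', hd q' hq'] at e
    refine hf3 ⟨q, hq⟩ ⟨q', hq'⟩ (fun h => hne (congrArg Subtype.val h)) _
      ⟨hR _ _ (Or.inr (Or.inr rfl)), hR _ _ (Or.inr (Or.inr e))⟩

/-- **Assembly over a basis.** -/
theorem crit4_of_weights {A X : Finset L} {b : Fin 4 → L} (hb : ∀ i, b i ∈ A)
    (hbr : rk ((Finset.univ : Finset (Fin 4)).sup b) = 4)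
    (hX : ∀ q, q ∈ X ↔ q ∈ A ∧ ∀ i, q ≠ b i) (al : L → L → L → Prop)
    (hal : ∀ q ∈ X, ∀ c ∈ A, ∀ d ∈ A, al q c d → rk (q ⊔ c) = 2 ∧ rk (q ⊔ d) = 2 ∧
      rk (q ⊔ c ⊔ d) = 3 ∧ q ⊔ c ≠ q ⊔ d ∧
      (∀ i j, i ≠ j → q ⊔ c ≠ b i ⊔ b j ∧ q ⊔ d ≠ b i ⊔ b j) ∧
      (∀ i j k, i ≠ j → i ≠ k → j ≠ k → q ⊔ c ⊔ d ≠ b i ⊔ b j ⊔ b k))
    (w : L → ℝ) (hw : ∀ q ∈ X, 0 < w q)
    (hZ : ∀ q ∈ X, 1 ≤ w q * (Pr A al q).card)
    (hload : ∀ q ∈ X, ∀ c ∈ A, ∀ d ∈ A, al q c d →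
      ld1 X A al w (q ⊔ c) + ld1 X A al w (q ⊔ d) + ld2 X A al w (q ⊔ c ⊔ d) ≤ 1) : Crit4 A := by
  obtain ⟨c, d, h1, h2, h3, h4, h5⟩ := pairs_of_weights al
    (fun q hq c hc d hd h => by
      obtain ⟨k1, k2, k3, k4, -, -⟩ := hal q hq c hc d hd h
      exact ⟨k1, k2, k3, k4⟩) w hw hZ hload
  refine ⟨b, c, d, hb, hbr, ?_, ?_, ?_, ?_, ?_, ?_, ?_, ?_⟩
  · intro q hq hqb
    obtain ⟨k1, k2, k3⟩ := h1 q ((hX q).mpr ⟨hq, hqb⟩)
    exact ⟨k1, k2, (hal q ((hX q).mpr ⟨hq, hqb⟩) _ k1 _ k2 k3).2.2.1⟩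
  · intro q hq hqb q' hq' hqb'
    exact h2 q ((hX q).mpr ⟨hq, hqb⟩) q' ((hX q').mpr ⟨hq', hqb'⟩)
  · intro q hq hqb q' hq' hqb'
    exact h3 q ((hX q).mpr ⟨hq, hqb⟩) q' ((hX q').mpr ⟨hq', hqb'⟩)
  · intro q hq hqb q' hq' hqb'
    exact h4 q ((hX q).mpr ⟨hq, hqb⟩) q' ((hX q').mpr ⟨hq', hqb'⟩)
  · intro q hq hqb i j hij
    obtain ⟨k1, k2, k3⟩ := h1 q ((hX q).mpr ⟨hq, hqb⟩)
    exact ((hal q ((hX q).mpr ⟨hq, hqb⟩) _ k1 _ k2 k3).2.2.2.2.1 i j hij).1
  · intro q hq hqb i j hij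
    obtain ⟨k1, k2, k3⟩ := h1 q ((hX q).mpr ⟨hq, hqb⟩)
    exact ((hal q ((hX q).mpr ⟨hq, hqb⟩) _ k1 _ k2 k3).2.2.2.2.1 i j hij).2
  · intro q hq hqb q' hq' hqb'
    exact h5 q ((hX q).mpr ⟨hq, hqb⟩) q' ((hX q').mpr ⟨hq', hqb'⟩)
  · intro q hq hqb i j k hij hik hjk
    obtain ⟨k1, k2, k3⟩ := h1 q ((hX q).mpr ⟨hq, hqb⟩)
    exact (hal q ((hX q).mpr ⟨hq, hqb⟩) _ k1 _ k2 k3).2.2.2.2.2 i j k hij hik hjk

end Pool.Agent.Helper63.CR
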