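import Pool.Agent.Helper8.ManyLines.Core

/-!
# MP_47cd0b: packings of rank four lattices from `Crit4` of the set of all atoms
-/

set_option autoImplicit false
set_option linter.unusedSectionVars false

namespace Pool.Agent.Helper63.CR

open Finset Pool.Agent.Helper28.BPack Pool.Agent.Helper61.Motz Pool.Agent.Helper38.Thick
  Pool.Agent.Helper8.ManyLines

theorem height_of_rk' {L : Type} [Lattice L] [BoundedOrder L] [Finite L] [IsUpperModularLattice L]
    {a : L} {n : ℕ} (h : rk a = n) : Order.height a = (n : ℕ∞) := by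
  rw [← coe_rk, h]

/-- The number of atoms below `g`, two ways. -/
theorem ncard_atoms {L : Type} [Lattice L] [BoundedOrder L] [Fintype L]
    [DecidableRel (α := L) (· ≤ ·)] {A : Finset L} (hA : ∀ a, a ∈ A ↔ IsAtom a) (g : L) :
    {a : L | IsAtom a ∧ a ≤ g}.ncard = (A.filter (· ≤ g)).card := by
  have h2 : {a : L | IsAtom a ∧ a ≤ g} = ((A.filter (· ≤ g) : Finset L) : Set L) := by
    ext a
    simp [hA a]
  rw [h2, Set.ncard_coe_finset]

theorem ncard_atoms' {L : Type} [Lattice L] [BoundedOrder L] [Fintype L]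
    {A : Finset L} (hA : ∀ a, a ∈ A ↔ IsAtom a) :
    {a : L | IsAtom a}.ncard = A.card := by
  have h2 : {a : L | IsAtom a} = ((A : Finset L) : Set L) := by
    ext a
    simp [hA a]
  rw [h2, Set.ncard_coe_finset]

/-- **Wrapper.** -/
theorem packing_of_crit4 {L : Type} [Lattice L] [BoundedOrder L] [Fintype L]
    [IsUpperModularLattice L]
    (hat : ∀ x : L, ∃ s : Finset L, (∀ a ∈ s, IsAtom a) ∧ s.sup id = x)
    (hr : Order.height (⊤ : L) = 4)
    (h : ∀ A : Finset L, (∀ a, a ∈ A ↔ IsAtom a) → rk (A.sup id) = 4 → Crit4 A) :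
    ∃ (t : ℕ) (n : Fin t → ℕ) (φ : ∀ i : Fin t, Set (Fin (n i)) → L),
      (∀ i, Function.Injective (φ i)) ∧
      (∀ i (a b : Set (Fin (n i))), a ⋖ b → φ i a ⋖ φ i b) ∧
      (∀ i, Order.height (⊤ : L) ≤ Order.height (φ i ⊥) + Order.height (φ i ⊤)) ∧
      (∀ x : L, ∃! p : (Σ i : Fin t, Set (Fin (n i))), φ p.1 p.2 = x) := by
  classical
  have hr' : rk (⊤ : L) = 4 := by
    rw [← coe_rk] at hr
    exact_mod_cast hr
  apply HasPack.to_packing
  have hA : ∀ a, a ∈ (univ : Finset L).filter IsAtom ↔ IsAtom a := fun a => by simp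
  have hsup : rk (((univ : Finset L).filter IsAtom).sup id) = 4 := by
    obtain ⟨s, hs, hst⟩ := hat ⊤
    have h1 : ((univ : Finset L).filter IsAtom).sup id = ⊤ := by
      apply top_unique
      rw [← hst]
      exact Finset.sup_mono (fun a ha => (hA a).mpr (hs a ha))
    rw [h1, hr']
  exact hasPack_of_red hat hr' hA (h _ hA hsup)

/-- The two alternatives of ShortLines together. -/
theorem packing_of_two {L : Type} [Lattice L] [BoundedOrder L] [Fintype L]
    [IsUpperModularLattice L]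
    (big : ∀ [DecidableEq L] [DecidableRel (α := L) (· ≤ ·)] {A : Finset L},
      (∀ a ∈ A, IsAtom a) → rk (A.sup id) = 4 → ∀ (s : ℕ),
      (∀ g, rk g = 2 → (A.filter (· ≤ g)).card ≤ s) → ∀ Q, rk Q = 3 →
      s ^ 2 + 3 * s + 1 ≤ (A.filter (· ≤ Q)).card → Crit4 A)
    (many : ∀ [DecidableEq L] [DecidableRel (α := L) (· ≤ ·)] {A : Finset L},
      (∀ a ∈ A, IsAtom a) → rk (A.sup id) = 4 → ∀ (s : ℕ),
      (∀ g, rk g = 2 → (A.filter (· ≤ g)).card ≤ s) →
      (∀ P, rk P = 3 → (A.filter (· ≤ P)).card ≤ s ^ 2 + 3 * s) →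
      (s + 3) ^ 3 ≤ A.card → Crit4 A)
    (hat : ∀ x : L, ∃ s : Finset L, (∀ a ∈ s, IsAtom a) ∧ s.sup id = x)
    (hr : Order.height (⊤ : L) = 4)
    (h : ∃ s : ℕ, (∀ g : L, Order.height g = 2 → {a : L | IsAtom a ∧ a ≤ g}.ncard ≤ s) ∧
      ((s + 3) ^ 3 ≤ {a : L | IsAtom a}.ncard ∨
        ∃ P : L, Order.height P = 3 ∧ s ^ 2 + 3 * s + 1 ≤ {a : L | IsAtom a ∧ a ≤ P}.ncard)) :
    ∃ (t : ℕ) (n : Fin t → ℕ) (φ : ∀ i : Fin t, Set (Fin (n i)) → L),
      (∀ i, Function.Injective (φ i)) ∧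
      (∀ i (a b : Set (Fin (n i))), a ⋖ b → φ i a ⋖ φ i b) ∧
      (∀ i, Order.height (⊤ : L) ≤ Order.height (φ i ⊥) + Order.height (φ i ⊤)) ∧
      (∀ x : L, ∃! p : (Σ i : Fin t, Set (Fin (n i))), φ p.1 p.2 = x) := by
  classical
  obtain ⟨s, hs, hcase⟩ := h
  refine packing_of_crit4 hat hr ?_
  intro A hA hrA
  have hA' : ∀ a ∈ A, IsAtom a := fun a ha => (hA a).mp ha
  have hs' : ∀ g, rk g = 2 → (A.filter (· ≤ g)).card ≤ s := fun g hg => by
    rw [← ncard_atoms hA]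
    exact hs g (height_of_rk' hg)
  by_cases hP : ∃ P, rk P = 3 ∧ s ^ 2 + 3 * s + 1 ≤ (A.filter (· ≤ P)).card
  · obtain ⟨P, h1, h2⟩ := hP
    exact big hA' hrA s hs' P h1 h2
  · push Not at hP
    rcases hcase with h1 | ⟨P, h1, h2⟩
    · rw [ncard_atoms' hA] at h1
      refine many hA' hrA s hs' (fun P hP' => ?_) h1
      have := hP P hP'
      omega
    · exfalso
      rw [ncard_atoms hA] at h2
      have h3 : rk P = 3 := by
        rw [← coe_rk] at h1
        exact_mod_cast h1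
      have := hP P h3
      omega

end Pool.Agent.Helper63.CR
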