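import Pool.Agent.Helper63.CR.Planes2

/-!
# MP_47cd0b: rank four, small planes, lines of any length (loads and theorem)
-/

set_option autoImplicit false
set_option linter.unusedSectionVars false

namespace Pool.Agent.Helper63.CR

open Finset Pool.Agent.Helper28.BPack Pool.Agent.Helper61.Motz Pool.Agent.Helper38.Thick

variable {L : Type} [Lattice L] [BoundedOrder L] [Finite L] [IsUpperModularLattice L]

theorem num2 {N s t e1 e2 h l1 l2 l3 : ℝ} (hN : 1000 * t ≤ N) (ht3 : 3 ≤ t) (h8 : 8 * t ^ 3 ≤ N ^ 2)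
    (hs2 : s ^ 2 = N) (hs0 : 0 ≤ s) (he1 : e1 ≤ s / 8) (he2 : e2 ≤ s / 8) (he10 : 0 ≤ e1)
    (he20 : 0 ≤ e2) (hh : h ≤ t ^ 3)
    (k1 : l1 * (0.21 * N ^ 2) ≤ (e1 + 1) * (2 * e1 * N))
    (k2 : l2 * (0.21 * N ^ 2) ≤ (e2 + 1) * (2 * e2 * N))
    (k3 : l3 * (0.21 * N ^ 2) ≤ h) : l1 + l2 + l3 ≤ 1 := by
  have hs54 : 54 ≤ s := by nlinarith
  have hN0 : 0 < N := by nlinarith
  have e3 : (e1 + 1) * e1 ≤ s ^ 2 / 64 + s / 8 := by nlinarith
  have e4 : (e2 + 1) * e2 ≤ s ^ 2 / 64 + s / 8 := by nlinarith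
  have e5 : (e1 + 1) * (2 * e1 * N) ≤ 2 * N * (s ^ 2 / 64 + s / 8) := by
    have := mul_le_mul_of_nonneg_left e3 (show 0 ≤ 2 * N by linarith)
    linarith
  have e6 : (e2 + 1) * (2 * e2 * N) ≤ 2 * N * (s ^ 2 / 64 + s / 8) := by
    have := mul_le_mul_of_nonneg_left e4 (show 0 ≤ 2 * N by linarith)
    linarith
  have e7 : s * N ≤ N ^ 2 / 54 := by
    rw [← hs2]
    nlinarith [mul_nonneg (mul_nonneg hs0 hs0) (mul_nonneg hs0 (by linarith : (0 : ℝ) ≤ s - 54))]
  rw [hs2] at e5 e6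
  have hN2 : 0 < 0.21 * N ^ 2 := by positivity
  have e8 : (l1 + l2 + l3) * (0.21 * N ^ 2) ≤ 1 * (0.21 * N ^ 2) := by nlinarith
  exact le_of_mul_le_mul_right e8 hN2

section

variable [DecidableEq L] [DecidableRel (α := L) (· ≤ ·)] {A : Finset L}

/-- **Rank four, small planes** (lines of any length). -/
theorem crit4_planes (hA : ∀ a ∈ A, IsAtom a) (hr : rk (A.sup id) = 4) {t : ℕ}
    (ht : ∀ H, rk H = 3 → (A.filter (· ≤ H)).card ≤ t) (hn : 1000 * t ≤ A.card)
    (h8 : 8 * t ^ 3 ≤ A.card ^ 2) : Crit4 A := by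
  classical
  -- three points
  have ht3 : 3 ≤ t := by
    obtain ⟨b, hb, hbr, -⟩ := exists_basis_with hA hr (fun _ => False) (by tauto)
    have h1 := Pool.Agent.Helper28.SL.frame_span (b := b) (fun i => hA _ (hb i)) hbr {0, 1, 2}
    have h2 : ({0, 1, 2} : Finset (Fin 4)).card = 3 := by decide
    rw [h2] at h1
    refine le_trans ?_ (ht _ h1)
    have hinj : Function.Injective b := by
      intro i j hij
      by_contra hne
      have h3 := Pool.Agent.Helper28.SL.frame_span (b := b) (fun i => hA _ (hb i)) hbr {i, j}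
      rw [card_pair hne, Finset.sup_insert, Finset.sup_singleton, hij, sup_idem,
        rk_atom (hA _ (hb j))] at h3
      omega
    have h3 : (({0, 1, 2} : Finset (Fin 4)).image b) ⊆
        A.filter (· ≤ ({0, 1, 2} : Finset (Fin 4)).sup b) := by
      intro x hx
      obtain ⟨i, hi, rfl⟩ := mem_image.mp hx
      exact mem_filter.mpr ⟨hb i, Finset.le_sup hi⟩
    have h4 := card_le_card h3
    rw [card_image_of_injective _ hinj, h2] at h4
    exact h4
  -- the basis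
  obtain ⟨b, hb, hbr, hbP⟩ := exists_basis_with hA hr (fun x => A.card ≤ 2 * (TT A x).card + 1)
    (fun x hx y hy z hz hxy hxz hyz h1 h2 h3 =>
      three_bound hA hr ht hn ht3 hx hy hz hxy hxz hyz h1 h2 h3)
  set X : Finset L := A.filter (fun q => ∀ i, q ≠ b i) with hX
  have hXm : ∀ q, q ∈ X ↔ q ∈ A ∧ ∀ i, q ≠ b i := fun q => mem_filter
  have hlow : ∀ q ∈ X, (0.21 : ℝ) * (A.card : ℝ) ^ 2 ≤ (Pr A (alP A b) q).card := by
    intro q hq
    obtain ⟨h1, h2⟩ := (hXm q).mp hq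
    refine pairs_lower hA hb hbr ht hn ht3 h1 (fun h => ?_)
    obtain ⟨i, hi⟩ := hbP q h1 h
    exact h2 i hi
  have hN3 : (3000 : ℝ) ≤ A.card := by
    have h1 : (1000 : ℝ) * t ≤ A.card := by exact_mod_cast hn
    have h2 : (3 : ℝ) ≤ t := by exact_mod_cast ht3
    linarith
  have hbase : (0 : ℝ) < 0.21 * (A.card : ℝ) ^ 2 := by positivity
  have hpos : ∀ q ∈ X, (0 : ℝ) < (Pr A (alP A b) q).card := fun q hq =>
    lt_of_lt_of_le hbase (hlow q hq)
  have hXA : X ⊆ A := filter_subset _ _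
  let w : L → ℝ := fun q => 1 / ((Pr A (alP A b) q).card : ℝ)
  -- a load from the number of pairs
  have hload : ∀ (g : L) (c0 : ℕ) (f : L → Finset (L × L)) (m : ℕ),
      (X.filter (· ≤ g)).card ≤ c0 → (∀ q ∈ X.filter (· ≤ g), (f q).card ≤ m) →
      (∑ q ∈ X.filter (· ≤ g), w q * ((f q).card : ℝ)) * (0.21 * (A.card : ℝ) ^ 2) ≤
        (c0 : ℝ) * m := by
    intro g c0 f m h1 h2
    rw [sum_mul]
    have h3 : ∀ q ∈ X.filter (· ≤ g), w q * ((f q).card : ℝ) * (0.21 * (A.card : ℝ) ^ 2) ≤ (m : ℝ) := by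
      intro q hq
      have hqX := (mem_filter.mp hq).1
      have h4 := hlow q hqX
      have h5 := hpos q hqX
      have h6 : ((f q).card : ℝ) ≤ (m : ℝ) := by exact_mod_cast h2 q hq
      have h7 : w q * (0.21 * (A.card : ℝ) ^ 2) ≤ 1 := by
        simp only [w]
        rw [one_div, inv_mul_le_iff₀ h5, mul_one]
        exact h4
      calc w q * ((f q).card : ℝ) * (0.21 * (A.card : ℝ) ^ 2)
          = (w q * (0.21 * (A.card : ℝ) ^ 2)) * ((f q).card : ℝ) := by ring
        _ ≤ 1 * ((f q).card : ℝ) := mul_le_mul_of_nonneg_right h7 (Nat.cast_nonneg _)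
        _ ≤ (m : ℝ) := by linarith
    refine (sum_le_card_nsmul _ _ _ h3).trans ?_
    rw [nsmul_eq_mul]
    exact mul_le_mul_of_nonneg_right (by exact_mod_cast h1) (Nat.cast_nonneg _)
  have hline : ∀ g : L, (∃ q ∈ A, q ≤ g) →
      ld1 X A (alP A b) w g * (0.21 * (A.card : ℝ) ^ 2) ≤
        ((ee A g : ℝ) + 1) * (2 * ee A g * A.card) := by
    rintro g ⟨q0, hq0, hq0g⟩
    have h1 := hload g (ee A g + 1)
      (fun q => (Pr A (alP A b) q).filter (fun p => q ⊔ p.1 = g ∨ q ⊔ p.2 = g))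
      (2 * ee A g * A.card) (by
        refine (card_le_card (filter_subset_filter _ hXA)).trans ?_
        have h2 : 0 < (A.filter (· ≤ g)).card := card_pos.mpr ⟨q0, mem_filter.mpr ⟨hq0, hq0g⟩⟩
        unfold ee
        omega) (by
        intro q hq
        obtain ⟨hqX, hqg⟩ := mem_filter.mp hq
        have hqA := hXA hqX
        have h2 : (Pr A (alP A b) q).filter (fun p => q ⊔ p.1 = g ∨ q ⊔ p.2 = g) ⊆
            ((A.filter (· ≤ g)).erase q) ×ˢ A ∪ A ×ˢ ((A.filter (· ≤ g)).erase q) := by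
          rintro ⟨c, d⟩ hp
          obtain ⟨h3, h4⟩ := mem_filter.mp hp
          obtain ⟨h5, h6, h7⟩ := mem_Pr.mp h3
          rw [mem_union, mem_product, mem_product]
          rcases h4 with h4 | h4
          · left
            refine ⟨mem_erase.mpr ⟨(mem_SS.mp h7.1).2.1, mem_filter.mpr ⟨h5, ?_⟩⟩, h6⟩
            exact le_sup_right.trans h4.le
          · right
            refine ⟨h5, mem_erase.mpr ⟨(mem_SS.mp h7.2.1).2.1, mem_filter.mpr ⟨h6, ?_⟩⟩⟩
            exact le_sup_right.trans h4.le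
        refine (card_le_card h2).trans ((card_union_le _ _).trans ?_)
        rw [card_product, card_product, card_erase_line hqA hqg]
        exact le_of_eq (by ring))
    push_cast at h1
    refine le_trans (le_of_eq ?_) h1
    unfold ld1
    congr!
  have hplane : ∀ H : L, rk H = 3 →
      ld2 X A (alP A b) w H * (0.21 * (A.card : ℝ) ^ 2) ≤
        (((A.filter (· ≤ H)).card : ℕ) : ℝ) * (((A.filter (· ≤ H)).card ^ 2 : ℕ) : ℝ) := by
    intro H _
    have h1 := hload H (A.filter (· ≤ H)).card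
      (fun q => (Pr A (alP A b) q).filter (fun p => q ⊔ p.1 ⊔ p.2 = H))
      ((A.filter (· ≤ H)).card ^ 2) (card_le_card (filter_subset_filter _ hXA)) (by
        intro q hq
        have h2 : (Pr A (alP A b) q).filter (fun p => q ⊔ p.1 ⊔ p.2 = H) ⊆
            (A.filter (· ≤ H)) ×ˢ (A.filter (· ≤ H)) := by
          rintro ⟨c, d⟩ hp
          obtain ⟨h3, h4⟩ := mem_filter.mp hp
          obtain ⟨h5, h6, h7⟩ := mem_Pr.mp h3
          rw [mem_product]
          exact ⟨mem_filter.mpr ⟨h5, (le_sup_right.trans le_sup_left).trans h4.le⟩,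
            mem_filter.mpr ⟨h6, le_sup_right.trans h4.le⟩⟩
        refine (card_le_card h2).trans ?_
        rw [card_product, sq])
    refine le_trans (le_of_eq ?_) h1
    unfold ld2
    congr!
  refine crit4_of_weights hb hbr hXm (alP A b) ?_ w ?_ ?_ ?_
  · intro q hq c hc d hd h
    obtain ⟨h1, h2, h3, h4, h5⟩ := h
    have hqA := hXA hq
    have hqc : q ≠ c := ((mem_SS.mp h1).2.1).symm
    have hqd : q ≠ d := ((mem_SS.mp h2).2.1).symm
    have r1 := rk_line (hA q hqA) (hA c hc) hqc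
    refine ⟨r1, rk_line (hA q hqA) (hA d hd) hqd, ?_, ?_, h4, h5⟩
    · rw [rk_sup_atom (hA d hd) h3, r1]
    · intro h
      exact h3 (by rw [h]; exact le_sup_right)
  · intro q hq
    simp only [w]
    exact one_div_pos.mpr (hpos q hq)
  · intro q hq
    simp only [w]
    rw [one_div, inv_mul_cancel₀ (hpos q hq).ne']
  · intro q hq c hc d hd h
    have hqA := hXA hq
    obtain ⟨h1, h2, h3, -, -⟩ := h
    have hqc : q ≠ c := ((mem_SS.mp h1).2.1).symm
    have r1 := rk_line (hA q hqA) (hA c hc) hqc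
    have r3 : rk (q ⊔ c ⊔ d) = 3 := by rw [rk_sup_atom (hA d hd) h3, r1]
    have hcard := ht _ r3
    refine num2 (N := (A.card : ℝ)) (s := Real.sqrt A.card) (t := (t : ℝ))
      (e1 := (ee A (q ⊔ c) : ℝ)) (e2 := (ee A (q ⊔ d) : ℝ))
      (h := (((A.filter (· ≤ q ⊔ c ⊔ d)).card : ℕ) : ℝ) *
        (((A.filter (· ≤ q ⊔ c ⊔ d)).card ^ 2 : ℕ) : ℝ))
      (by exact_mod_cast hn) (by exact_mod_cast ht3) (by exact_mod_cast h8)
      (Real.sq_sqrt (Nat.cast_nonneg _)) (Real.sqrt_nonneg _) (ee_le_sqrt h1) (ee_le_sqrt h2)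
      (Nat.cast_nonneg _) (Nat.cast_nonneg _) ?_ (hline _ ⟨q, hqA, le_sup_left⟩)
      (hline _ ⟨q, hqA, le_sup_left⟩) (hplane _ r3)
    have h6 : (A.filter (· ≤ q ⊔ c ⊔ d)).card * (A.filter (· ≤ q ⊔ c ⊔ d)).card ^ 2 ≤ t ^ 3 := by
      calc (A.filter (· ≤ q ⊔ c ⊔ d)).card * (A.filter (· ≤ q ⊔ c ⊔ d)).card ^ 2
          = (A.filter (· ≤ q ⊔ c ⊔ d)).card ^ 3 := by ring
        _ ≤ t ^ 3 := Nat.pow_le_pow_left hcard 3
    exact_mod_cast h6

end

end Pool.Agent.Helper63.CR
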