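import Pool.Agent.Helper63.CR.Wrap
import Pool.Agent.Helper63.CR.Planes

/-!
# MP_47cd0b: packings of rank four lattices with small planes (lines of any length)
-/

set_option autoImplicit false
set_option linter.unusedSectionVars false

namespace Pool.Agent.Helper63.CR

open Finset Pool.Agent.Helper28.BPack Pool.Agent.Helper61.Motz Pool.Agent.Helper38.Thick
  Pool.Agent.Helper8.ManyLines

/-- `n` atoms, all planes have at most `t`, `1000 t ≤ n`, `8 t ^ 3 ≤ n ^ 2`. -/
theorem packing_of_planes {L : Type} [Lattice L] [BoundedOrder L] [Fintype L]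
    [IsUpperModularLattice L]
    (hat : ∀ x : L, ∃ s : Finset L, (∀ a ∈ s, IsAtom a) ∧ s.sup id = x)
    (hr : Order.height (⊤ : L) = 4)
    (h : ∃ t : ℕ, (∀ P : L, Order.height P = 3 → {a : L | IsAtom a ∧ a ≤ P}.ncard ≤ t) ∧
      1000 * t ≤ {a : L | IsAtom a}.ncard ∧ 8 * t ^ 3 ≤ {a : L | IsAtom a}.ncard ^ 2) :
    ∃ (t : ℕ) (n : Fin t → ℕ) (φ : ∀ i : Fin t, Set (Fin (n i)) → L),
      (∀ i, Function.Injective (φ i)) ∧
      (∀ i (a b : Set (Fin (n i))), a ⋖ b → φ i a ⋖ φ i b) ∧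
      (∀ i, Order.height (⊤ : L) ≤ Order.height (φ i ⊥) + Order.height (φ i ⊤)) ∧
      (∀ x : L, ∃! p : (Σ i : Fin t, Set (Fin (n i))), φ p.1 p.2 = x) := by
  classical
  obtain ⟨t, ht, h1, h2⟩ := h
  refine packing_of_crit4 hat hr ?_
  intro A hA hrA
  rw [ncard_atoms' hA] at h1 h2
  refine crit4_planes (fun a ha => (hA a).mp ha) hrA (t := t) (fun P hP => ?_) h1 h2
  rw [← ncard_atoms hA]
  exact ht P (height_of_rk' hP)

end Pool.Agent.Helper63.CR
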