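import Pool.Agent.Helper63.CR.Sharp2

/-!
# MP_47cd0b: rank four, planes of at most `t` points, `t ^ 3 ≤ (1 - 1 / k) n ^ 2`, lines of any length
-/

set_option autoImplicit false
set_option linter.unusedSectionVars false

namespace Pool.Agent.Helper63.CR

open Finset Pool.Agent.Helper28.BPack Pool.Agent.Helper61.Motz Pool.Agent.Helper38.Thick

variable {L : Type} [Lattice L] [BoundedOrder L] [Finite L] [IsUpperModularLattice L]

section

variable [DecidableEq L] [DecidableRel (α := L) (· ≤ ·)] {A : Finset L}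

/-- allowed pairs -/
def alC (A : Finset L) (m : ℕ) (b : Fin 4 → L) (q c d : L) : Prop :=
  c ∈ SC A m q ∧ d ∈ SC A m q ∧ ¬ d ≤ q ⊔ c ∧
    (∀ i j, i ≠ j → q ⊔ c ≠ b i ⊔ b j ∧ q ⊔ d ≠ b i ⊔ b j) ∧
    (∀ i j k, i ≠ j → i ≠ k → j ≠ k → q ⊔ c ⊔ d ≠ b i ⊔ b j ⊔ b k)

theorem ee_le_sqrt_c {m : ℕ} (hm : 0 < m) {q c : L} (h : c ∈ SC A m q) :
    (ee A (q ⊔ c) : ℝ) ≤ Real.sqrt ((A.card : ℝ) / m) := by
  have h1 := (mem_SC.mp h).2.2
  apply Real.le_sqrt_of_sq_le
  rw [le_div_iff₀ (by exact_mod_cast hm)]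
  have h3 : ((m * (ee A (q ⊔ c)) ^ 2 : ℕ) : ℝ) ≤ (A.card : ℝ) := by exact_mod_cast h1
  push_cast at h3
  linarith

/-- The number of allowed pairs. -/
theorem pairs_gen (hA : ∀ a ∈ A, IsAtom a) {b : Fin 4 → L} (hb : ∀ i, b i ∈ A)
    (hbr : rk ((Finset.univ : Finset (Fin 4)).sup b) = 4) {t m : ℕ} (hm : 0 < m)
    (ht : ∀ H, rk H = 3 → (A.filter (· ≤ H)).card ≤ t) {q : L} (hq : q ∈ A) :
    ((SC A m q).card : ℝ) * (SC A m q).card ≤ (Pr A (alC A m b) q).card +
      33 * Real.sqrt ((A.card : ℝ) / m) * (SC A m q).card + 64 * (t : ℝ) ^ 2 := by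
  classical
  set s : ℝ := Real.sqrt ((A.card : ℝ) / m) with hs
  have hs0 : 0 ≤ s := Real.sqrt_nonneg _
  have hqa := hA q hq
  set S := SC A m q with hS
  -- lines through `q` equal to a given line
  have hline : ∀ β : L, ((S.filter (fun c => q ⊔ c = β)).card : ℝ) ≤ s := by
    intro β
    rcases (S.filter (fun c => q ⊔ c = β)).eq_empty_or_nonempty with h | ⟨c0, h0⟩
    · rw [h, card_empty, Nat.cast_zero]
      exact hs0
    · obtain ⟨h1, h2⟩ := mem_filter.mp h0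
      have h3 : (S.filter (fun c => q ⊔ c = β)).card ≤ ee A β := by
        rw [← card_erase_line hq (show q ≤ β by rw [← h2]; exact le_sup_left)]
        apply card_le_card
        intro c hc
        obtain ⟨h4, h5⟩ := mem_filter.mp hc
        obtain ⟨h6, h7, -⟩ := mem_SC.mp h4
        exact mem_erase.mpr ⟨h7, mem_filter.mpr ⟨h6, by rw [← h5]; exact le_sup_right⟩⟩
      have h4 := ee_le_sqrt_c hm h1
      rw [h2] at h4
      have h5 : ((S.filter (fun c => q ⊔ c = β)).card : ℝ) ≤ (ee A β : ℝ) := by exact_mod_cast h3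
      linarith
  set D1 := (S ×ˢ S).filter (fun p : L × L => p.2 ≤ q ⊔ p.1) with hD1
  set B1 := S.filter (fun c => ∃ i j, i ≠ j ∧ q ⊔ c = b i ⊔ b j) with hB1
  set D4 := (Finset.univ : Finset (Fin 4 × Fin 4 × Fin 4)).biUnion (fun v =>
    if v.1 ≠ v.2.1 ∧ v.1 ≠ v.2.2 ∧ v.2.1 ≠ v.2.2 then
      (A.filter (· ≤ b v.1 ⊔ b v.2.1 ⊔ b v.2.2)) ×ˢ (A.filter (· ≤ b v.1 ⊔ b v.2.1 ⊔ b v.2.2))
    else ∅) with hD4
  have hcov : S ×ˢ S ⊆ Pr A (alC A m b) q ∪ (D1 ∪ (B1 ×ˢ S ∪ (S ×ˢ B1 ∪ D4))) := by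
    rintro ⟨c, d⟩ hp
    obtain ⟨h1, h2⟩ := mem_product.mp hp
    simp only [mem_union]
    by_cases k1 : d ≤ q ⊔ c
    · exact Or.inr (Or.inl (mem_filter.mpr ⟨hp, k1⟩))
    by_cases k2 : ∃ i j, i ≠ j ∧ q ⊔ c = b i ⊔ b j
    · exact Or.inr (Or.inr (Or.inl (mem_product.mpr ⟨mem_filter.mpr ⟨h1, k2⟩, h2⟩)))
    by_cases k3 : ∃ i j, i ≠ j ∧ q ⊔ d = b i ⊔ b j
    · exact Or.inr (Or.inr (Or.inr (Or.inl (mem_product.mpr ⟨h1, mem_filter.mpr ⟨h2, k3⟩⟩))))
    by_cases k4 : ∃ i j k, i ≠ j ∧ i ≠ k ∧ j ≠ k ∧ q ⊔ c ⊔ d = b i ⊔ b j ⊔ b k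
    · obtain ⟨i, j, k, k5, k6, k7, k8⟩ := k4
      refine Or.inr (Or.inr (Or.inr (Or.inr ?_)))
      rw [hD4, mem_biUnion]
      refine ⟨(i, j, k), mem_univ _, ?_⟩
      rw [if_pos ⟨k5, k6, k7⟩, mem_product]
      exact ⟨mem_filter.mpr ⟨(mem_SC.mp h1).1, by
          show c ≤ b i ⊔ b j ⊔ b k
          rw [← k8]; exact le_sup_right.trans le_sup_left⟩,
        mem_filter.mpr ⟨(mem_SC.mp h2).1, by
          show d ≤ b i ⊔ b j ⊔ b k
          rw [← k8]; exact le_sup_right⟩⟩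
    · refine Or.inl (mem_Pr.mpr ⟨(mem_SC.mp h1).1, (mem_SC.mp h2).1, h1, h2, k1, ?_, ?_⟩)
      · intro i j hij
        exact ⟨fun h => k2 ⟨i, j, hij, h⟩, fun h => k3 ⟨i, j, hij, h⟩⟩
      · intro i j k k5 k6 k7 h
        exact k4 ⟨i, j, k, k5, k6, k7, h⟩
  have hcard := (card_le_card hcov).trans ((card_union_le _ _).trans (Nat.add_le_add_left
    ((card_union_le _ _).trans (Nat.add_le_add_left ((card_union_le _ _).trans
      (Nat.add_le_add_left (card_union_le _ _) _)) _)) _))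
  rw [card_product, card_product, card_product] at hcard
  have hcard' : ((S.card : ℝ)) * S.card ≤ (Pr A (alC A m b) q).card + (D1.card + (B1.card * S.card +
      (S.card * B1.card + D4.card))) := by exact_mod_cast hcard
  have hD1c : (D1.card : ℝ) ≤ S.card * s := by
    have h1 : D1.card = ∑ c ∈ S, (S.filter (fun d => d ≤ q ⊔ c)).card :=
      card_prod_filter S S (fun c d => d ≤ q ⊔ c)
    rw [h1]
    push_cast
    rw [← nsmul_eq_mul]
    apply sum_le_card_nsmul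
    intro c hc
    refine le_trans ?_ (ee_le_sqrt_c hm hc)
    have h2 : (S.filter (fun d => d ≤ q ⊔ c)).card ≤ ee A (q ⊔ c) := by
      rw [← card_erase_line hq le_sup_left]
      apply card_le_card
      intro d hd
      obtain ⟨h3, h4⟩ := mem_filter.mp hd
      exact mem_erase.mpr ⟨(mem_SC.mp h3).2.1, mem_filter.mpr ⟨(mem_SC.mp h3).1, h4⟩⟩
    exact_mod_cast h2
  have hB1c : (B1.card : ℝ) ≤ 16 * s := by
    have h1 : B1 ⊆ (Finset.univ : Finset (Fin 4 × Fin 4)).biUnion (fun v =>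
        S.filter (fun c => q ⊔ c = b v.1 ⊔ b v.2)) := by
      intro c hc
      obtain ⟨h1, i, j, -, h2⟩ := mem_filter.mp hc
      rw [mem_biUnion]
      exact ⟨(i, j), mem_univ _, mem_filter.mpr ⟨h1, h2⟩⟩
    have h2 := (card_le_card h1).trans card_biUnion_le
    have h3 : (B1.card : ℝ) ≤ ∑ v : Fin 4 × Fin 4,
        ((S.filter (fun c => q ⊔ c = b v.1 ⊔ b v.2)).card : ℝ) := by exact_mod_cast h2
    have h4 : ∑ v : Fin 4 × Fin 4, ((S.filter (fun c => q ⊔ c = b v.1 ⊔ b v.2)).card : ℝ) ≤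
        ∑ _v : Fin 4 × Fin 4, s := Finset.sum_le_sum fun v _ => hline _
    rw [Finset.sum_const, Finset.card_univ, Fintype.card_prod, Fintype.card_fin, nsmul_eq_mul] at h4
    push_cast at h4
    linarith
  have hD4c : (D4.card : ℝ) ≤ 64 * (t : ℝ) ^ 2 := by
    have h1 : D4.card ≤ ∑ v : Fin 4 × Fin 4 × Fin 4, t ^ 2 := by
      refine card_biUnion_le.trans (Finset.sum_le_sum fun v _ => ?_)
      split_ifs with h
      · have h2 : rk (b v.1 ⊔ b v.2.1 ⊔ b v.2.2) = 3 := by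
          have h3 := Pool.Agent.Helper28.SL.frame_span (b := b) (fun i => hA _ (hb i)) hbr
            {v.1, v.2.1, v.2.2}
          rw [card_eq_three.mpr ⟨v.1, v.2.1, v.2.2, h.1, h.2.1, h.2.2, rfl⟩, Finset.sup_insert,
            Finset.sup_insert, Finset.sup_singleton, ← sup_assoc] at h3
          exact h3
        rw [card_product, sq]
        exact Nat.mul_le_mul (ht _ h2) (ht _ h2)
      · rw [card_empty]
        exact Nat.zero_le _
    rw [Finset.sum_const, Finset.card_univ, Fintype.card_prod, Fintype.card_prod, Fintype.card_fin,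
      smul_eq_mul] at h1
    have h2 : (D4.card : ℝ) ≤ ((4 * (4 * 4) * t ^ 2 : ℕ) : ℝ) := by exact_mod_cast h1
    push_cast at h2
    linarith
  have hSc0 : (0 : ℝ) ≤ S.card := Nat.cast_nonneg _
  have e1 : (B1.card : ℝ) * S.card ≤ 16 * s * S.card := mul_le_mul_of_nonneg_right hB1c hSc0
  have e2 : (S.card : ℝ) * B1.card ≤ S.card * (16 * s) := mul_le_mul_of_nonneg_left hB1c hSc0
  linarith

/-- **Rank four, small planes, sharp constant** (lines of any length). -/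
theorem crit4_planes_sharp (hA : ∀ a ∈ A, IsAtom a) (hr : rk (A.sup id) = 4) {t k : ℕ}
    (hk : 1 ≤ k) (ht : ∀ H, rk H = 3 → (A.filter (· ≤ H)).card ≤ t)
    (hn : 1000 * k ^ 3 * t ≤ A.card) (hn' : 10 ^ 6 * k ^ 3 ≤ A.card)
    (h : k * t ^ 3 + A.card ^ 2 ≤ k * A.card ^ 2) : Crit4 A := by
  classical
  have hk3 : 1 ≤ k ^ 3 := Nat.one_le_pow _ _ hk
  have hn6 : 1000000 ≤ A.card := by
    calc 1000000 = 10 ^ 6 * 1 := by norm_num
      _ ≤ 10 ^ 6 * k ^ 3 := Nat.mul_le_mul_left _ hk3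
      _ ≤ _ := hn'
  have hexc := exc_bound hk hA hr ht hn (by omega)
  set E : Finset L := A.filter (fun x => A.card < 4 * k * (TC A (16 * k) x).card) with hE
  -- the basis
  have hthree : 6 * ((16 * k + 1) * t) + 3 < A.card := by
    have h1 : (16 * k + 1) * t ≤ 17 * (k ^ 3 * t) := by
      have h2 : 16 * k + 1 ≤ 17 * k ^ 3 := by nlinarith [Nat.le_self_pow (n := 3) (by norm_num) k]
      calc (16 * k + 1) * t ≤ 17 * k ^ 3 * t := Nat.mul_le_mul_right _ h2
        _ = _ := by ring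
    have h3 : 1000 * (k ^ 3 * t) ≤ A.card := by
      calc 1000 * (k ^ 3 * t) = 1000 * k ^ 3 * t := by ring
        _ ≤ _ := hn
    omega
  obtain ⟨b, hb, hbr, hbP⟩ := exists_basis_with hA hr
    (fun x => A.card ≤ 2 * (TC A (16 * k) x).card + 1)
    (fun x hx y hy z hz hxy hxz hyz h1 h2 h3 =>
      three_bound_c hA hr ht hthree hx hy hz hxy hxz hyz h1 h2 h3)
  set X : Finset L := A.filter (fun q => ∀ i, q ≠ b i) with hX
  have hXm : ∀ q, q ∈ X ↔ q ∈ A ∧ ∀ i, q ≠ b i := fun q => mem_filter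
  have hXA : X ⊆ A := filter_subset _ _
  -- numbers
  have hkpos : (0 : ℝ) < k := by exact_mod_cast hk
  have hk1 : (1 : ℝ) ≤ k := by exact_mod_cast hk
  set κ : ℝ := 1 / (k : ℝ) with hκdef
  have hκ : 0 < κ := one_div_pos.mpr hkpos
  have hκ1 : κ ≤ 1 := by rw [hκdef, div_le_one hkpos]; exact hk1
  have hkκ : (k : ℝ) * κ = 1 := by rw [hκdef, mul_one_div_cancel hkpos.ne']
  set N : ℝ := (A.card : ℝ) with hN
  have hN1 : (1000000 : ℝ) ≤ κ ^ 3 * N := by
    have h1 : (10 : ℝ) ^ 6 * k ^ 3 ≤ N := by rw [hN]; exact_mod_cast hn'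
    have h2 := mul_le_mul_of_nonneg_left h1 (show 0 ≤ κ ^ 3 by positivity)
    have h3 : κ ^ 3 * ((10 : ℝ) ^ 6 * k ^ 3) = (k * κ) ^ 3 * 10 ^ 6 := by ring
    rw [h3, hkκ] at h2
    norm_num at h2
    exact h2
  have ht1 : (t : ℝ) ≤ κ ^ 3 * N / 1000 := by
    have h1 : (1000 : ℝ) * k ^ 3 * t ≤ N := by rw [hN]; exact_mod_cast hn
    have h2 := mul_le_mul_of_nonneg_left h1 (show 0 ≤ κ ^ 3 by positivity)
    have h3 : κ ^ 3 * ((1000 : ℝ) * k ^ 3 * t) = (k * κ) ^ 3 * (1000 * t) := by ring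
    rw [h3, hkκ] at h2
    linarith
  have h3' : (k : ℝ) * (t : ℝ) ^ 3 + N ^ 2 ≤ k * N ^ 2 := by rw [hN]; exact_mod_cast h
  set r : ℝ := Real.sqrt ((A.card : ℝ) / ((16 * k : ℕ) : ℝ)) with hrdef
  have hr0 : 0 ≤ r := Real.sqrt_nonneg _
  have hr2 : r ^ 2 = κ * N / 16 := by
    rw [hrdef, Real.sq_sqrt (by positivity)]
    rw [hκdef, hN]
    push_cast
    field_simp
  have hm : 0 < 16 * k := by omega
  have hsum : ∀ q ∈ A, (SC A (16 * k) q).card + (TC A (16 * k) q).card + 1 = A.card :=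
    fun q hq => SC_TC hq
  have hup : ∀ q, ((SC A (16 * k) q).card : ℝ) ≤ N := fun q => by
    rw [hN]
    have h1 : (SC A (16 * k) q).card ≤ A.card := card_le_card (filter_subset _ _)
    exact_mod_cast h1
  have hlowE : ∀ q ∈ X, N ^ 2 / 5 ≤ (Pr A (alC A (16 * k) b) q).card := by
    intro q hq
    obtain ⟨h1, h2⟩ := (hXm q).mp hq
    have h4 : A.card ≤ 2 * (SC A (16 * k) q).card := by
      have h5 : ¬ A.card ≤ 2 * (TC A (16 * k) q).card + 1 := fun h6 => by
        obtain ⟨i, hi⟩ := hbP q h1 h6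
        exact h2 i hi
      have := hsum q h1
      omega
    have h5 : N ≤ 2 * ((SC A (16 * k) q).card : ℝ) := by rw [hN]; exact_mod_cast h4
    exact numB hκ hκ1 hN1 hr0 hr2 (Nat.cast_nonneg t) ht1 h5 (hup q)
      (pairs_gen hA hb hbr hm ht h1)
  have hlowN : ∀ q ∈ X, q ∉ E → N ^ 2 * (1 - 0.51 * κ) ≤ (Pr A (alC A (16 * k) b) q).card := by
    intro q hq hqE
    obtain ⟨h1, h2⟩ := (hXm q).mp hq
    have h4 : 4 * k * (TC A (16 * k) q).card ≤ A.card := by
      by_contra hc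
      push Not at hc
      exact hqE (mem_filter.mpr ⟨h1, hc⟩)
    have h5 : (4 : ℝ) * k * (TC A (16 * k) q).card ≤ N := by rw [hN]; exact_mod_cast h4
    have h6 := mul_le_mul_of_nonneg_left h5 hκ.le
    have h7 : κ * ((4 : ℝ) * k * (TC A (16 * k) q).card) =
        (k * κ) * (4 * (TC A (16 * k) q).card) := by ring
    rw [h7, hkκ, one_mul] at h6
    have h8 : ((SC A (16 * k) q).card : ℝ) + (TC A (16 * k) q).card + 1 = N := by
      rw [hN]
      exact_mod_cast hsum q h1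
    exact numA hκ hκ1 hN1 hr0 hr2 (Nat.cast_nonneg t) ht1 (by linarith) (hup q)
      (pairs_gen hA hb hbr hm ht h1)
  have hN6 : (1000000 : ℝ) ≤ N := by rw [hN]; exact_mod_cast hn6
  have hpos : ∀ q ∈ X, (0 : ℝ) < (Pr A (alC A (16 * k) b) q).card := fun q hq =>
    lt_of_lt_of_le (by positivity) (hlowE q hq)
  let w : L → ℝ := fun q => 1 / ((Pr A (alC A (16 * k) b) q).card : ℝ)
  set z1 : ℝ := N ^ 2 * (1 - 0.51 * κ) with hz1
  have hz10 : 0 ≤ z1 := mul_nonneg (by positivity) (by linarith)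
  have hz1N : z1 ≤ N ^ 2 := by
    have : 0 ≤ N ^ 2 * (0.51 * κ) := by positivity
    rw [hz1]
    linarith
  have hw1 : ∀ q ∈ X, w q * z1 ≤ if q ∈ E then 5 else 1 := by
    intro q hq
    have h5 := hpos q hq
    simp only [w]
    rw [one_div, inv_mul_le_iff₀ h5]
    split_ifs with hqE
    · have := hlowE q hq
      linarith
    · rw [mul_one]
      exact hlowN q hq hqE
  -- a load from the number of pairs
  have hload : ∀ (g : L) (c0 : ℕ) (f : L → Finset (L × L)) (M : ℕ),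
      (X.filter (· ≤ g)).card ≤ c0 → (∀ q ∈ X.filter (· ≤ g), (f q).card ≤ M) →
      (∑ q ∈ X.filter (· ≤ g), w q * ((f q).card : ℝ)) * z1 ≤ ((c0 : ℝ) + 40 * k) * M := by
    intro g c0 f M h1 h2
    rw [sum_mul]
    have h4 : ∀ q ∈ X.filter (· ≤ g), w q * ((f q).card : ℝ) * z1 ≤
        (M : ℝ) + (if q ∈ E then 5 * (M : ℝ) else 0) := by
      intro q hq
      have hqX := (mem_filter.mp hq).1
      have h6 : ((f q).card : ℝ) ≤ (M : ℝ) := by exact_mod_cast h2 q hq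
      have h7 := hw1 q hqX
      have h8 : (0 : ℝ) ≤ ((f q).card : ℝ) := Nat.cast_nonneg _
      have h9 : w q * ((f q).card : ℝ) * z1 = (w q * z1) * ((f q).card : ℝ) := by ring
      rw [h9]
      by_cases hqE : q ∈ E
      · rw [if_pos hqE] at h7 ⊢
        have := mul_le_mul_of_nonneg_right h7 h8
        linarith
      · rw [if_neg hqE] at h7 ⊢
        have := mul_le_mul_of_nonneg_right h7 h8
        linarith
    refine (Finset.sum_le_sum h4).trans ?_
    rw [Finset.sum_add_distrib, Finset.sum_const, nsmul_eq_mul, Finset.sum_ite_mem,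
      Finset.sum_const, nsmul_eq_mul]
    have h5 : ((X.filter (· ≤ g)).card : ℝ) ≤ c0 := by exact_mod_cast h1
    have h6 : (((X.filter (· ≤ g)) ∩ E).card : ℝ) ≤ 8 * k := by
      have h7 : ((X.filter (· ≤ g)) ∩ E).card ≤ 8 * k :=
        (card_le_card inter_subset_right).trans hexc.le
      exact_mod_cast h7
    have h7 : (0 : ℝ) ≤ (M : ℝ) := Nat.cast_nonneg _
    have h8 := mul_le_mul_of_nonneg_right h5 h7
    have h9 := mul_le_mul_of_nonneg_right h6 h7
    linarith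
  have hline : ∀ g : L, (∃ q ∈ A, q ≤ g) →
      ld1 X A (alC A (16 * k) b) w g * z1 ≤
        ((ee A g : ℝ) + 1 + 40 * k) * (2 * ee A g * N) := by
    rintro g ⟨q0, hq0, hq0g⟩
    have h1 := hload g (ee A g + 1)
      (fun q => (Pr A (alC A (16 * k) b) q).filter (fun p => q ⊔ p.1 = g ∨ q ⊔ p.2 = g))
      (2 * ee A g * A.card) (by
        refine (card_le_card (filter_subset_filter _ hXA)).trans ?_
        have h2 : 0 < (A.filter (· ≤ g)).card := card_pos.mpr ⟨q0, mem_filter.mpr ⟨hq0, hq0g⟩⟩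
        unfold ee
        omega) (by
        intro q hq
        obtain ⟨hqX, hqg⟩ := mem_filter.mp hq
        have hqA := hXA hqX
        have h2 : (Pr A (alC A (16 * k) b) q).filter (fun p => q ⊔ p.1 = g ∨ q ⊔ p.2 = g) ⊆
            ((A.filter (· ≤ g)).erase q) ×ˢ A ∪ A ×ˢ ((A.filter (· ≤ g)).erase q) := by
          rintro ⟨c, d⟩ hp
          obtain ⟨h3, h4⟩ := mem_filter.mp hp
          obtain ⟨h5, h6, h7⟩ := mem_Pr.mp h3
          rw [mem_union, mem_product, mem_product]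
          rcases h4 with h4 | h4
          · left
            refine ⟨mem_erase.mpr ⟨(mem_SC.mp h7.1).2.1, mem_filter.mpr ⟨h5, ?_⟩⟩, h6⟩
            exact le_sup_right.trans h4.le
          · right
            refine ⟨h5, mem_erase.mpr ⟨(mem_SC.mp h7.2.1).2.1, mem_filter.mpr ⟨h6, ?_⟩⟩⟩
            exact le_sup_right.trans h4.le
        refine (card_le_card h2).trans ((card_union_le _ _).trans ?_)
        rw [card_product, card_product, card_erase_line hqA hqg]
        exact le_of_eq (by ring))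
    push_cast at h1
    refine le_trans (le_of_eq ?_) h1
    unfold ld1
    congr!
  have hplane : ∀ H : L, rk H = 3 →
      ld2 X A (alC A (16 * k) b) w H * z1 ≤
        ((((A.filter (· ≤ H)).card : ℕ) : ℝ) + 40 * k) * (((A.filter (· ≤ H)).card : ℕ) : ℝ) ^ 2 := by
    intro H _
    have h1 := hload H (A.filter (· ≤ H)).card
      (fun q => (Pr A (alC A (16 * k) b) q).filter (fun p => q ⊔ p.1 ⊔ p.2 = H))
      ((A.filter (· ≤ H)).card ^ 2) (card_le_card (filter_subset_filter _ hXA)) (by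
        intro q hq
        have h2 : (Pr A (alC A (16 * k) b) q).filter (fun p => q ⊔ p.1 ⊔ p.2 = H) ⊆
            (A.filter (· ≤ H)) ×ˢ (A.filter (· ≤ H)) := by
          rintro ⟨c, d⟩ hp
          obtain ⟨h3, h4⟩ := mem_filter.mp hp
          obtain ⟨h5, h6, h7⟩ := mem_Pr.mp h3
          rw [mem_product]
          exact ⟨mem_filter.mpr ⟨h5, (le_sup_right.trans le_sup_left).trans h4.le⟩,
            mem_filter.mpr ⟨h6, le_sup_right.trans h4.le⟩⟩
        refine (card_le_card h2).trans ?_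
        rw [card_product, sq])
    push_cast at h1
    refine le_trans (le_of_eq ?_) h1
    unfold ld2
    congr!
  refine crit4_of_weights hb hbr hXm (alC A (16 * k) b) ?_ w ?_ ?_ ?_
  · intro q hq c hc d hd h
    obtain ⟨h1, h2, h3, h4, h5⟩ := h
    have hqA := hXA hq
    have hqc : q ≠ c := ((mem_SC.mp h1).2.1).symm
    have hqd : q ≠ d := ((mem_SC.mp h2).2.1).symm
    have r1 := rk_line (hA q hqA) (hA c hc) hqc
    refine ⟨r1, rk_line (hA q hqA) (hA d hd) hqd, ?_, ?_, h4, h5⟩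
    · rw [rk_sup_atom (hA d hd) h3, r1]
    · intro h
      exact h3 (by rw [h]; exact le_sup_right)
  · intro q hq
    simp only [w]
    exact one_div_pos.mpr (hpos q hq)
  · intro q hq
    simp only [w]
    rw [one_div, inv_mul_cancel₀ (hpos q hq).ne']
  · intro q hq c hc d hd h
    have hqA := hXA hq
    obtain ⟨h1, h2, h3, -, -⟩ := h
    have hqc : q ≠ c := ((mem_SC.mp h1).2.1).symm
    have r1 := rk_line (hA q hqA) (hA c hc) hqc
    have r3 : rk (q ⊔ c ⊔ d) = 3 := by rw [rk_sup_atom (hA d hd) h3, r1]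
    have hcard : (((A.filter (· ≤ q ⊔ c ⊔ d)).card : ℕ) : ℝ) ≤ t := by exact_mod_cast ht _ r3
    exact numC hκ hκ1 hkκ hN1 hr0 hr2 (Nat.cast_nonneg t) ht1 h3' (ee_le_sqrt_c hm h1)
      (ee_le_sqrt_c hm h2) (Nat.cast_nonneg _) (Nat.cast_nonneg _) (Nat.cast_nonneg _) hcard
      (hline _ ⟨q, hqA, le_sup_left⟩) (hline _ ⟨q, hqA, le_sup_left⟩) (hplane _ r3)

end

end Pool.Agent.Helper63.CR
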