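import Pool.Agent.Helper63.CR.Asm

/-!
# MP_47cd0b: rank four, small planes, lines of any length (counting long lines)
-/

set_option autoImplicit false
set_option linter.unusedSectionVars false

namespace Pool.Agent.Helper63.CR

open Finset Pool.Agent.Helper28.BPack Pool.Agent.Helper61.Motz Pool.Agent.Helper38.Thick

variable {L : Type} [Lattice L] [BoundedOrder L] [Finite L] [IsUpperModularLattice L]

section

variable [DecidableEq L] [DecidableRel (α := L) (· ≤ ·)] {A : Finset L}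

/-- number of points of `g`, minus one -/
def ee (A : Finset L) (g : L) : ℕ := (A.filter (· ≤ g)).card - 1

/-- points on long lines through `x` -/
def TT (A : Finset L) (x : L) : Finset L := A.filter (fun y => y ≠ x ∧ A.card < 64 * (ee A (x ⊔ y)) ^ 2)

/-- points on short lines through `x` -/
def SS (A : Finset L) (x : L) : Finset L := A.filter (fun y => y ≠ x ∧ 64 * (ee A (x ⊔ y)) ^ 2 ≤ A.card)

theorem mem_TT {x y : L} : y ∈ TT A x ↔ y ∈ A ∧ y ≠ x ∧ A.card < 64 * (ee A (x ⊔ y)) ^ 2 := by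
  simp only [TT, mem_filter]

theorem mem_SS {x y : L} : y ∈ SS A x ↔ y ∈ A ∧ y ≠ x ∧ 64 * (ee A (x ⊔ y)) ^ 2 ≤ A.card := by
  simp only [SS, mem_filter]

theorem card_erase_line {x g : L} (hx : x ∈ A) (hg : x ≤ g) :
    ((A.filter (· ≤ g)).erase x).card = ee A g := by
  rw [card_erase_of_mem (mem_filter.mpr ⟨hx, hg⟩), ee]

theorem SS_TT {x : L} (hx : x ∈ A) : (SS A x).card + (TT A x).card + 1 = A.card := by
  have h1 : SS A x ∪ TT A x = A.erase x := by
    ext y
    rw [mem_union, mem_SS, mem_TT, mem_erase]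
    constructor
    · rintro (⟨h1, h2, -⟩ | ⟨h1, h2, -⟩) <;> exact ⟨h2, h1⟩
    · rintro ⟨h1, h2⟩
      rcases le_or_gt (64 * (ee A (x ⊔ y)) ^ 2) A.card with h | h
      · exact Or.inl ⟨h2, h1, h⟩
      · exact Or.inr ⟨h2, h1, h⟩
  have h2 : Disjoint (SS A x) (TT A x) := by
    rw [disjoint_left]
    intro y h3 h4
    have h5 := (mem_SS.mp h3).2.2
    have h6 := (mem_TT.mp h4).2.2
    omega
  rw [← card_union_of_disjoint h2, h1, card_erase_of_mem hx]
  have : 0 < A.card := card_pos.mpr ⟨x, hx⟩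
  omega

/-- **Few points see two points along long lines.** -/
theorem pair_bound (hA : ∀ a ∈ A, IsAtom a) (hr : rk (A.sup id) = 4) {t : ℕ}
    (ht : ∀ H, rk H = 3 → (A.filter (· ≤ H)).card ≤ t) {x y : L} (hx : x ∈ A) (hy : y ∈ A)
    (hxy : x ≠ y) : (TT A x ∩ TT A y).card ≤ 65 * t := by
  classical
  have hxa := hA x hx
  have hya := hA y hy
  have hl : rk (x ⊔ y) = 2 := rk_line hxa hya hxy
  have hpl : ∀ q ∈ A, ¬ q ≤ x ⊔ y → rk (x ⊔ y ⊔ q) = 3 := fun q hq h => by
    rw [rk_sup_atom (hA q hq) h, hl]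
  -- the points on the line
  have h1 : (A.filter (· ≤ x ⊔ y)).card ≤ t := by
    obtain ⟨z, hz, hzl⟩ : ∃ z ∈ A, ¬ z ≤ x ⊔ y := by
      by_contra hcon
      push Not at hcon
      have h2 : A.sup id ≤ x ⊔ y := Finset.sup_le fun z hz => hcon z hz
      have h3 := rk_mono h2
      omega
    refine (card_le_card ?_).trans (ht _ (hpl z hz hzl))
    intro p hp
    obtain ⟨h4, h5⟩ := mem_filter.mp hp
    exact mem_filter.mpr ⟨h4, h5.trans le_sup_left⟩
  -- the other points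
  set D : Finset L := (TT A x ∩ TT A y).filter (fun p => ¬ p ≤ x ⊔ y) with hD
  have hsub : TT A x ∩ TT A y ⊆ A.filter (· ≤ x ⊔ y) ∪ D := by
    intro p hp
    rw [mem_union]
    by_cases h : p ≤ x ⊔ y
    · exact Or.inl (mem_filter.mpr ⟨(mem_TT.mp (mem_inter.mp hp).1).1, h⟩)
    · exact Or.inr (mem_filter.mpr ⟨hp, h⟩)
  have hDm : ∀ p ∈ D, p ∈ A ∧ p ≠ x ∧ p ≠ y ∧ ¬ p ≤ x ⊔ y ∧
      A.card < 64 * (ee A (x ⊔ p)) ^ 2 ∧ A.card < 64 * (ee A (y ⊔ p)) ^ 2 := by
    intro p hp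
    obtain ⟨h2, h3⟩ := mem_filter.mp hp
    obtain ⟨h4, h5⟩ := mem_inter.mp h2
    exact ⟨(mem_TT.mp h4).1, (mem_TT.mp h4).2.1, (mem_TT.mp h5).2.1, h3, (mem_TT.mp h4).2.2,
      (mem_TT.mp h5).2.2⟩
  let Tr : L → Finset (L × L) := fun p =>
    ((A.filter (· ≤ x ⊔ p)).erase x) ×ˢ ((A.filter (· ≤ y ⊔ p)).erase y)
  have hTr : ∀ p ∈ D, A.card ≤ 64 * (Tr p).card := by
    intro p hp
    obtain ⟨-, -, -, -, h5, h6⟩ := hDm p hp
    have h7 : (Tr p).card = ee A (x ⊔ p) * ee A (y ⊔ p) := by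
      rw [card_product, card_erase_line hx le_sup_left, card_erase_line hy le_sup_left]
    rw [h7]
    by_contra hcon
    push Not at hcon
    have h8 : (64 * (ee A (x ⊔ p) * ee A (y ⊔ p))) ^ 2 < A.card ^ 2 :=
      Nat.pow_lt_pow_left hcon (by norm_num)
    have h9 : A.card ^ 2 < (64 * (ee A (x ⊔ p)) ^ 2) * (64 * (ee A (y ⊔ p)) ^ 2) := by
      rw [sq]
      exact Nat.mul_lt_mul'' h5 h6
    nlinarith
  have hdis : ∀ p ∈ D, ∀ p' ∈ D, p ≠ p' → Disjoint (Tr p) (Tr p') := by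
    intro p hp p' hp' hne
    obtain ⟨k1, k2, k3, k4, -, -⟩ := hDm p hp
    obtain ⟨m1, m2, m3, m4, -, -⟩ := hDm p' hp'
    rw [disjoint_left]
    rintro ⟨q, r⟩ hq hq'
    rw [mem_product] at hq hq'
    obtain ⟨a1, a2⟩ := hq
    obtain ⟨a3, a4⟩ := hq'
    obtain ⟨b1, b2⟩ := mem_erase.mp a1
    obtain ⟨b3, b4⟩ := mem_filter.mp b2
    obtain ⟨c1, c2⟩ := mem_erase.mp a2
    obtain ⟨c3, c4⟩ := mem_filter.mp c2
    obtain ⟨d1, d2⟩ := mem_erase.mp a3
    obtain ⟨d3, d4⟩ := mem_filter.mp d2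
    obtain ⟨e1, e2⟩ := mem_erase.mp a4
    obtain ⟨e3, e4⟩ := mem_filter.mp e2
    have hqa := hA q b3
    have hra := hA r c3
    have rxp := rk_line hxa (hA p k1) k2.symm
    have ryp := rk_line hya (hA p k1) k3.symm
    have rxp' := rk_line hxa (hA p' m1) m2.symm
    have ryp' := rk_line hya (hA p' m1) m3.symm
    have h2 : x ⊔ p = x ⊔ p' := line_two hxa hqa (Ne.symm b1) le_sup_left b4 rxp le_sup_left d4 rxp'
    have h3 : y ⊔ p = y ⊔ p' := line_two hya hra (Ne.symm c1) le_sup_left c4 ryp le_sup_left e4 ryp'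
    have h4 : x ⊔ p = y ⊔ p := line_two (hA p k1) (hA p' m1) hne le_sup_right
      (by rw [h2]; exact le_sup_right) rxp le_sup_right (by rw [h3]; exact le_sup_right) ryp
    apply k4
    have h5 : x ⊔ y = x ⊔ p := line_of hxa hya hxy le_sup_left (by rw [h4]; exact le_sup_left) rxp
    rw [h5]
    exact le_sup_right
  have hun : ∑ p ∈ D, (Tr p).card ≤ A.card * t := by
    rw [← card_biUnion hdis]
    have h2 : D.biUnion Tr ⊆ (A.filter (fun q => ¬ q ≤ x ⊔ y)).biUnion (fun q =>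
        ({q} : Finset L) ×ˢ A.filter (· ≤ x ⊔ y ⊔ q)) := by
      rintro ⟨q, r⟩ hqr
      rw [mem_biUnion] at hqr ⊢
      obtain ⟨p, hp, hqr⟩ := hqr
      obtain ⟨k1, k2, k3, k4, -, -⟩ := hDm p hp
      rw [mem_product] at hqr
      obtain ⟨a1, a2⟩ := hqr
      obtain ⟨b1, b2⟩ := mem_erase.mp a1
      obtain ⟨b3, b4⟩ := mem_filter.mp b2
      obtain ⟨c1, c2⟩ := mem_erase.mp a2
      obtain ⟨c3, c4⟩ := mem_filter.mp c2
      have rxp := rk_line hxa (hA p k1) k2.symm
      have h3 : x ⊔ q = x ⊔ p := line_of hxa (hA q b3) (Ne.symm b1) le_sup_left b4 rxp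
      have h4 : ¬ q ≤ x ⊔ y := by
        intro h
        apply k4
        have h5 : x ⊔ q = x ⊔ y := line_of hxa (hA q b3) (Ne.symm b1) le_sup_left h hl
        rw [← h5, h3]
        exact le_sup_right
      refine ⟨q, mem_filter.mpr ⟨b3, h4⟩, ?_⟩
      rw [mem_product]
      refine ⟨mem_singleton_self q, mem_filter.mpr ⟨c3, c4.trans ?_⟩⟩
      have h5 : p ≤ x ⊔ q := by rw [h3]; exact le_sup_right
      exact sup_le (le_sup_right.trans le_sup_left)
        (h5.trans (sup_le (le_sup_left.trans le_sup_left) le_sup_right))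
    refine (card_le_card h2).trans ?_
    refine card_biUnion_le.trans ?_
    have h3 : ∀ q ∈ A.filter (fun q => ¬ q ≤ x ⊔ y),
        (({q} : Finset L) ×ˢ A.filter (· ≤ x ⊔ y ⊔ q)).card ≤ t := by
      intro q hq
      obtain ⟨h4, h5⟩ := mem_filter.mp hq
      rw [card_product, card_singleton, one_mul]
      exact ht _ (hpl q h4 h5)
    refine (sum_le_card_nsmul _ _ _ h3).trans ?_
    rw [smul_eq_mul]
    exact Nat.mul_le_mul_right _ (card_le_card (filter_subset _ _))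
  have hDc : D.card ≤ 64 * t := by
    have hpos : 0 < A.card := card_pos.mpr ⟨x, hx⟩
    have h2 : D.card * A.card ≤ ∑ p ∈ D, 64 * (Tr p).card := by
      rw [← smul_eq_mul]
      exact card_nsmul_le_sum _ _ _ hTr
    rw [← mul_sum] at h2
    have h3 : D.card * A.card ≤ (64 * t) * A.card := by nlinarith
    exact Nat.le_of_mul_le_mul_right h3 hpos
  have h2 := (card_le_card hsub).trans (card_union_le _ _)
  omega

/-- Not three points see half of the points along long lines. -/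
theorem three_bound (hA : ∀ a ∈ A, IsAtom a) (hr : rk (A.sup id) = 4) {t : ℕ}
    (ht : ∀ H, rk H = 3 → (A.filter (· ≤ H)).card ≤ t) (hn : 1000 * t ≤ A.card) (ht3 : 3 ≤ t)
    {x y z : L} (hx : x ∈ A) (hy : y ∈ A) (hz : z ∈ A)
    (hxy : x ≠ y) (hxz : x ≠ z) (hyz : y ≠ z) (h1 : A.card ≤ 2 * (TT A x).card + 1)
    (h2 : A.card ≤ 2 * (TT A y).card + 1) (h3 : A.card ≤ 2 * (TT A z).card + 1) : False := by
  have k1 := pair_bound hA hr ht hx hy hxy
  have k2 := pair_bound hA hr ht hx hz hxz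
  have k3 := pair_bound hA hr ht hy hz hyz
  have m1 := card_union_add_card_inter (TT A x) (TT A y)
  have m2 := card_union_add_card_inter (TT A x ∪ TT A y) (TT A z)
  have m3 : ((TT A x ∪ TT A y) ∩ TT A z).card ≤ (TT A x ∩ TT A z).card + (TT A y ∩ TT A z).card := by
    rw [union_inter_distrib_right]
    exact card_union_le _ _
  have m4 : ((TT A x ∪ TT A y) ∪ TT A z).card ≤ A.card := by
    apply card_le_card
    intro p hp
    rw [mem_union, mem_union] at hp
    rcases hp with (hp | hp) | hp <;> exact (mem_TT.mp hp).1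
  omega

end

end Pool.Agent.Helper63.CR
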