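import Pool.Agent.Helper63.CR.Planes1

/-!
# MP_47cd0b: a basis which contains two given points
-/

set_option autoImplicit false
set_option linter.unusedSectionVars false

namespace Pool.Agent.Helper63.CR

open Finset Pool.Agent.Helper28.BPack Pool.Agent.Helper61.Motz Pool.Agent.Helper38.Thick

variable {L : Type} [Lattice L] [BoundedOrder L] [Finite L] [IsUpperModularLattice L]

/-- A basis which contains all points with a property that at most two points have. -/
theorem exists_basis_with {A : Finset L} (hA : ∀ a ∈ A, IsAtom a) (hr : rk (A.sup id) = 4)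
    (P : L → Prop) (hP : ∀ x ∈ A, ∀ y ∈ A, ∀ z ∈ A, x ≠ y → x ≠ z → y ≠ z → P x → P y → P z → False) :
    ∃ b : Fin 4 → L, (∀ i, b i ∈ A) ∧ rk ((Finset.univ : Finset (Fin 4)).sup b) = 4 ∧
      ∀ x ∈ A, P x → ∃ i, x = b i := by
  classical
  set E : Finset L := A.filter P with hE
  have hEA : ∀ x ∈ E, x ∈ A ∧ P x := fun x hx => mem_filter.mp hx
  have hE2 : E.card ≤ 2 := by
    by_contra hcon
    push Not at hcon
    obtain ⟨x, hx, y, hy, z, hz, h1, h2, h3⟩ := two_lt_card.mp hcon
    exact hP x (hEA x hx).1 y (hEA y hy).1 z (hEA z hz).1 h1 h2 h3 (hEA x hx).2 (hEA y hy).2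
      (hEA z hz).2
  have hEr : rk (E.sup id) = E.card := by
    rcases Nat.lt_or_ge E.card 1 with h | h
    · have h0 : E.card = 0 := by omega
      rw [h0]
      rw [card_eq_zero] at h0
      rw [h0, sup_empty, rk_bot]
    · rcases Nat.lt_or_ge E.card 2 with h' | h'
      · have h1 : E.card = 1 := by omega
        rw [h1]
        obtain ⟨a, ha⟩ := card_eq_one.mp h1
        rw [ha, sup_singleton, id]
        exact rk_atom (hA a (hEA a (by rw [ha]; exact mem_singleton_self a)).1)
      · have h1 : E.card = 2 := by omega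
        rw [h1]
        obtain ⟨a, b, hab, ha⟩ := card_eq_two.mp h1
        rw [ha, sup_insert, sup_singleton, id, id]
        exact rk_line (hA a (hEA a (by rw [ha]; simp)).1) (hA b (hEA b (by rw [ha]; simp)).1) hab
  obtain ⟨C, hCA, hC1, hC2⟩ := exists_basis (E.sup id) A hA
  have hEs : E.sup id ⊔ A.sup id = A.sup id := sup_eq_right.mpr
    (Finset.sup_mono (filter_subset _ _))
  rw [hEs] at hC1 hC2
  set B : Finset L := E ∪ C with hB
  have hBs : B.sup id = A.sup id := by rw [hB, Finset.sup_union, hC1]
  have hBA : ∀ x ∈ B, x ∈ A := by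
    intro x hx
    rcases mem_union.mp hx with h | h
    · exact (hEA x h).1
    · exact hCA h
  have hB4 : B.card = 4 := by
    have h1 : B.card ≤ E.card + C.card := card_union_le _ _
    have h2 : rk (B.sup id) ≤ B.card := by
      have h3 := rk_sup_finset_le (⊥ : L) B id (fun b hb => hA b (hBA b hb))
      rw [rk_bot, bot_sup_eq, zero_add] at h3
      exact h3
    rw [hBs] at h2
    omega
  let e := B.equivFinOfCardEq hB4
  refine ⟨fun i => (e.symm i).1, fun i => hBA _ (e.symm i).2, ?_, ?_⟩
  · have h1 : (Finset.univ : Finset (Fin 4)).sup (fun i => (e.symm i).1) = B.sup id := by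
      apply le_antisymm
      · exact Finset.sup_le fun i _ => Finset.le_sup (f := id) (e.symm i).2
      · apply Finset.sup_le
        intro x hx
        have h2 := Finset.le_sup (f := fun i => (e.symm i).1) (mem_univ (e ⟨x, hx⟩))
        simp only [Equiv.symm_apply_apply] at h2
        exact h2
    rw [h1, hBs, hr]
  · intro x hx hPx
    have h1 : x ∈ B := mem_union_left _ (mem_filter.mpr ⟨hx, hPx⟩)
    exact ⟨e ⟨x, h1⟩, by simp only [Equiv.symm_apply_apply]⟩

end Pool.Agent.Helper63.CR
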