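import Pool.Agent.Helper63.CR.Basis
import Pool.Agent.Helper28.SL.Frame

/-!
# MP_47cd0b: rank four, small planes, lines of any length

If all planes have at most `t` points, `1000 t ≤ n` and `8 t ^ 3 ≤ n ^ 2` then `Crit4`.
-/

set_option autoImplicit false
set_option linter.unusedSectionVars false

namespace Pool.Agent.Helper63.CR

open Finset Pool.Agent.Helper28.BPack Pool.Agent.Helper61.Motz Pool.Agent.Helper38.Thick

variable {L : Type} [Lattice L] [BoundedOrder L] [Finite L] [IsUpperModularLattice L]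

section

variable [DecidableEq L] [DecidableRel (α := L) (· ≤ ·)] {A : Finset L}

/-- allowed pairs -/
def alP (A : Finset L) (b : Fin 4 → L) (q c d : L) : Prop :=
  c ∈ SS A q ∧ d ∈ SS A q ∧ ¬ d ≤ q ⊔ c ∧
    (∀ i j, i ≠ j → q ⊔ c ≠ b i ⊔ b j ∧ q ⊔ d ≠ b i ⊔ b j) ∧
    (∀ i j k, i ≠ j → i ≠ k → j ≠ k → q ⊔ c ⊔ d ≠ b i ⊔ b j ⊔ b k)

theorem ee_le_sqrt {q c : L} (h : c ∈ SS A q) :
    (ee A (q ⊔ c) : ℝ) ≤ Real.sqrt A.card / 8 := by
  have h1 := (mem_SS.mp h).2.2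
  have h2 : ((8 : ℝ) * ee A (q ⊔ c)) ≤ Real.sqrt A.card := by
    apply Real.le_sqrt_of_sq_le
    have h3 : ((64 * (ee A (q ⊔ c)) ^ 2 : ℕ) : ℝ) ≤ (A.card : ℝ) := by exact_mod_cast h1
    push_cast at h3
    nlinarith
  linarith

theorem card_prod_filter (S T : Finset L) (P : L → L → Prop) [DecidableRel P] :
    ((S ×ˢ T).filter (fun p => P p.1 p.2)).card = ∑ c ∈ S, (T.filter (fun d => P c d)).card := by
  rw [card_filter, sum_product]
  apply sum_congr rfl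
  intro c _
  rw [card_filter]

theorem num1 {N σ s B D1 D4 t Z : ℝ} (hσ0 : 0 ≤ σ) (hN : 1000 * t ≤ N) (ht3 : 3 ≤ t)
    (hs2 : s ^ 2 = N) (hs0 : 0 ≤ s) (hlow : N ≤ 2 * σ) (_hup : σ ≤ N)
    (hcard : σ * σ ≤ Z + (D1 + (B * σ + (σ * B + D4)))) (hD1 : D1 ≤ σ * (s / 8))
    (hB : B ≤ 2 * s) (hD4 : D4 ≤ 64 * t ^ 2) : (0.21 : ℝ) * N ^ 2 ≤ Z := by
  have hs54 : 54 ≤ s := by nlinarith
  have e1 : B * σ ≤ 2 * s * σ := mul_le_mul_of_nonneg_right hB hσ0
  have e2 : σ * B ≤ σ * (2 * s) := mul_le_mul_of_nonneg_left hB hσ0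
  have e3 : t ^ 2 ≤ N ^ 2 / 1000000 := by nlinarith
  have e4 : σ * σ - (33 / 8) * s * σ - 64 * t ^ 2 ≤ Z := by linarith
  have e7 : (33 / 8) * s ≤ N / 2 := by nlinarith
  have e5 : N * (N / 4 - (33 / 16) * s) ≤ σ * σ - (33 / 8) * s * σ := by
    have e6 : 0 ≤ σ - N / 2 := by linarith
    nlinarith [mul_nonneg e6 (show (0 : ℝ) ≤ σ + N / 2 - (33 / 8) * s by linarith)]
  have e8 : s * N ≤ N ^ 2 / 54 := by
    rw [← hs2]
    nlinarith [mul_nonneg (mul_nonneg hs0 hs0) (mul_nonneg hs0 (by linarith : (0 : ℝ) ≤ s - 54))]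
  have hN0 : 0 ≤ N ^ 2 := sq_nonneg _
  nlinarith

/-- The number of allowed pairs. -/
theorem pairs_lower (hA : ∀ a ∈ A, IsAtom a) {b : Fin 4 → L} (hb : ∀ i, b i ∈ A)
    (hbr : rk ((Finset.univ : Finset (Fin 4)).sup b) = 4) {t : ℕ}
    (ht : ∀ H, rk H = 3 → (A.filter (· ≤ H)).card ≤ t) (hn : 1000 * t ≤ A.card)
    (ht3 : 3 ≤ t) {q : L} (hq : q ∈ A)
    (hqT : ¬ A.card ≤ 2 * (TT A q).card + 1) :
    (0.21 : ℝ) * (A.card : ℝ) ^ 2 ≤ (Pr A (alP A b) q).card := by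
  classical
  set s : ℝ := Real.sqrt A.card with hs
  have hqa := hA q hq
  set S := SS A q with hS
  have hlow : A.card ≤ 2 * S.card := by
    have h := SS_TT hq
    rw [← hS] at h
    omega
  have hup : S.card ≤ A.card := card_le_card (filter_subset _ _)
  -- lines through `q` equal to a given line
  have hline : ∀ β : L, ((S.filter (fun c => q ⊔ c = β)).card : ℝ) ≤ s / 8 := by
    intro β
    rcases (S.filter (fun c => q ⊔ c = β)).eq_empty_or_nonempty with h | ⟨c0, h0⟩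
    · rw [h, card_empty, Nat.cast_zero]
      positivity
    · obtain ⟨h1, h2⟩ := mem_filter.mp h0
      have h3 : (S.filter (fun c => q ⊔ c = β)).card ≤ ee A β := by
        rw [← card_erase_line hq (show q ≤ β by rw [← h2]; exact le_sup_left)]
        apply card_le_card
        intro c hc
        obtain ⟨h4, h5⟩ := mem_filter.mp hc
        obtain ⟨h6, h7, -⟩ := mem_SS.mp h4
        exact mem_erase.mpr ⟨h7, mem_filter.mpr ⟨h6, by rw [← h5]; exact le_sup_right⟩⟩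
      have h4 := ee_le_sqrt h1
      rw [h2] at h4
      have h5 : ((S.filter (fun c => q ⊔ c = β)).card : ℝ) ≤ (ee A β : ℝ) := by exact_mod_cast h3
      linarith
  set D1 := (S ×ˢ S).filter (fun p : L × L => p.2 ≤ q ⊔ p.1) with hD1
  set B1 := S.filter (fun c => ∃ i j, i ≠ j ∧ q ⊔ c = b i ⊔ b j) with hB1
  set D4 := (Finset.univ : Finset (Fin 4 × Fin 4 × Fin 4)).biUnion (fun v =>
    if v.1 ≠ v.2.1 ∧ v.1 ≠ v.2.2 ∧ v.2.1 ≠ v.2.2 then
      (A.filter (· ≤ b v.1 ⊔ b v.2.1 ⊔ b v.2.2)) ×ˢ (A.filter (· ≤ b v.1 ⊔ b v.2.1 ⊔ b v.2.2))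
    else ∅) with hD4
  have hcov : S ×ˢ S ⊆ Pr A (alP A b) q ∪ (D1 ∪ (B1 ×ˢ S ∪ (S ×ˢ B1 ∪ D4))) := by
    rintro ⟨c, d⟩ hp
    obtain ⟨h1, h2⟩ := mem_product.mp hp
    simp only [mem_union]
    by_cases k1 : d ≤ q ⊔ c
    · exact Or.inr (Or.inl (mem_filter.mpr ⟨hp, k1⟩))
    by_cases k2 : ∃ i j, i ≠ j ∧ q ⊔ c = b i ⊔ b j
    · exact Or.inr (Or.inr (Or.inl (mem_product.mpr ⟨mem_filter.mpr ⟨h1, k2⟩, h2⟩)))
    by_cases k3 : ∃ i j, i ≠ j ∧ q ⊔ d = b i ⊔ b j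
    · exact Or.inr (Or.inr (Or.inr (Or.inl (mem_product.mpr ⟨h1, mem_filter.mpr ⟨h2, k3⟩⟩))))
    by_cases k4 : ∃ i j k, i ≠ j ∧ i ≠ k ∧ j ≠ k ∧ q ⊔ c ⊔ d = b i ⊔ b j ⊔ b k
    · obtain ⟨i, j, k, k5, k6, k7, k8⟩ := k4
      refine Or.inr (Or.inr (Or.inr (Or.inr ?_)))
      rw [hD4, mem_biUnion]
      refine ⟨(i, j, k), mem_univ _, ?_⟩
      rw [if_pos ⟨k5, k6, k7⟩, mem_product]
      exact ⟨mem_filter.mpr ⟨(mem_SS.mp h1).1, by
          show c ≤ b i ⊔ b j ⊔ b k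
          rw [← k8]; exact le_sup_right.trans le_sup_left⟩,
        mem_filter.mpr ⟨(mem_SS.mp h2).1, by
          show d ≤ b i ⊔ b j ⊔ b k
          rw [← k8]; exact le_sup_right⟩⟩
    · refine Or.inl (mem_Pr.mpr ⟨(mem_SS.mp h1).1, (mem_SS.mp h2).1, h1, h2, k1, ?_, ?_⟩)
      · intro i j hij
        exact ⟨fun h => k2 ⟨i, j, hij, h⟩, fun h => k3 ⟨i, j, hij, h⟩⟩
      · intro i j k k5 k6 k7 h
        exact k4 ⟨i, j, k, k5, k6, k7, h⟩
  have hcard := (card_le_card hcov).trans ((card_union_le _ _).trans (Nat.add_le_add_left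
    ((card_union_le _ _).trans (Nat.add_le_add_left ((card_union_le _ _).trans
      (Nat.add_le_add_left (card_union_le _ _) _)) _)) _))
  rw [card_product, card_product, card_product] at hcard
  have hcard' : ((S.card : ℝ)) * S.card ≤ (Pr A (alP A b) q).card + (D1.card + (B1.card * S.card +
      (S.card * B1.card + D4.card))) := by exact_mod_cast hcard
  have hD1c : (D1.card : ℝ) ≤ S.card * (s / 8) := by
    have h1 : D1.card = ∑ c ∈ S, (S.filter (fun d => d ≤ q ⊔ c)).card :=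
      card_prod_filter S S (fun c d => d ≤ q ⊔ c)
    rw [h1]
    push_cast
    rw [← nsmul_eq_mul]
    apply sum_le_card_nsmul
    intro c hc
    refine le_trans ?_ (ee_le_sqrt hc)
    have h2 : (S.filter (fun d => d ≤ q ⊔ c)).card ≤ ee A (q ⊔ c) := by
      rw [← card_erase_line hq le_sup_left]
      apply card_le_card
      intro d hd
      obtain ⟨h3, h4⟩ := mem_filter.mp hd
      exact mem_erase.mpr ⟨(mem_SS.mp h3).2.1, mem_filter.mpr ⟨(mem_SS.mp h3).1, h4⟩⟩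
    exact_mod_cast h2
  have hB1c : (B1.card : ℝ) ≤ 2 * s := by
    have h1 : B1 ⊆ (Finset.univ : Finset (Fin 4 × Fin 4)).biUnion (fun v =>
        S.filter (fun c => q ⊔ c = b v.1 ⊔ b v.2)) := by
      intro c hc
      obtain ⟨h1, i, j, -, h2⟩ := mem_filter.mp hc
      rw [mem_biUnion]
      exact ⟨(i, j), mem_univ _, mem_filter.mpr ⟨h1, h2⟩⟩
    have h2 := (card_le_card h1).trans card_biUnion_le
    have h3 : (B1.card : ℝ) ≤ ∑ v : Fin 4 × Fin 4,
        ((S.filter (fun c => q ⊔ c = b v.1 ⊔ b v.2)).card : ℝ) := by exact_mod_cast h2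
    have h4 : ∑ v : Fin 4 × Fin 4, ((S.filter (fun c => q ⊔ c = b v.1 ⊔ b v.2)).card : ℝ) ≤
        ∑ _v : Fin 4 × Fin 4, s / 8 := Finset.sum_le_sum fun v _ => hline _
    rw [Finset.sum_const, Finset.card_univ, Fintype.card_prod, Fintype.card_fin, nsmul_eq_mul] at h4
    push_cast at h4
    linarith
  have hD4c : (D4.card : ℝ) ≤ 64 * (t : ℝ) ^ 2 := by
    have h1 : D4.card ≤ ∑ v : Fin 4 × Fin 4 × Fin 4, t ^ 2 := by
      refine card_biUnion_le.trans (Finset.sum_le_sum fun v _ => ?_)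
      split_ifs with h
      · have h2 : rk (b v.1 ⊔ b v.2.1 ⊔ b v.2.2) = 3 := by
          have h3 := Pool.Agent.Helper28.SL.frame_span (b := b) (fun i => hA _ (hb i)) hbr
            {v.1, v.2.1, v.2.2}
          rw [card_eq_three.mpr ⟨v.1, v.2.1, v.2.2, h.1, h.2.1, h.2.2, rfl⟩, Finset.sup_insert,
            Finset.sup_insert, Finset.sup_singleton, ← sup_assoc] at h3
          exact h3
        rw [card_product, sq]
        exact Nat.mul_le_mul (ht _ h2) (ht _ h2)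
      · rw [card_empty]
        exact Nat.zero_le _
    rw [Finset.sum_const, Finset.card_univ, Fintype.card_prod, Fintype.card_prod, Fintype.card_fin,
      smul_eq_mul] at h1
    have h2 : (D4.card : ℝ) ≤ ((4 * (4 * 4) * t ^ 2 : ℕ) : ℝ) := by exact_mod_cast h1
    push_cast at h2
    linarith
  exact num1 (Nat.cast_nonneg _) (by exact_mod_cast hn) (by exact_mod_cast ht3)
    (Real.sq_sqrt (Nat.cast_nonneg _)) (Real.sqrt_nonneg _) (by exact_mod_cast hlow)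
    (by exact_mod_cast hup) hcard' hD1c hB1c hD4c

end

end Pool.Agent.Helper63.CR
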