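import Pool.Agent.Helper63.CR.Planes2

/-!
# MP_47cd0b: rank four, small planes, lines of any length, sharp constant (counting long lines)

`g` is long when `n < c * e(g) ^ 2`.
-/

set_option autoImplicit false
set_option linter.unusedSectionVars false

namespace Pool.Agent.Helper63.CR

open Finset Pool.Agent.Helper28.BPack Pool.Agent.Helper61.Motz Pool.Agent.Helper38.Thick

variable {L : Type} [Lattice L] [BoundedOrder L] [Finite L] [IsUpperModularLattice L]

section

variable [DecidableEq L] [DecidableRel (α := L) (· ≤ ·)] {A : Finset L}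

/-- points on long lines through `x` -/
def TC (A : Finset L) (c : ℕ) (x : L) : Finset L := A.filter (fun y => y ≠ x ∧ A.card < c * (ee A (x ⊔ y)) ^ 2)

/-- points on short lines through `x` -/
def SC (A : Finset L) (c : ℕ) (x : L) : Finset L := A.filter (fun y => y ≠ x ∧ c * (ee A (x ⊔ y)) ^ 2 ≤ A.card)

theorem mem_TC {c : ℕ} {x y : L} : y ∈ TC A c x ↔ y ∈ A ∧ y ≠ x ∧ A.card < c * (ee A (x ⊔ y)) ^ 2 := by
  simp only [TC, mem_filter]

theorem mem_SC {c : ℕ} {x y : L} : y ∈ SC A c x ↔ y ∈ A ∧ y ≠ x ∧ c * (ee A (x ⊔ y)) ^ 2 ≤ A.card := by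
  simp only [SC, mem_filter]

theorem SC_TC {c : ℕ} {x : L} (hx : x ∈ A) : (SC A c x).card + (TC A c x).card + 1 = A.card := by
  have h1 : SC A c x ∪ TC A c x = A.erase x := by
    ext y
    rw [mem_union, mem_SC, mem_TC, mem_erase]
    constructor
    · rintro (⟨h1, h2, -⟩ | ⟨h1, h2, -⟩) <;> exact ⟨h2, h1⟩
    · rintro ⟨h1, h2⟩
      rcases le_or_gt (c * (ee A (x ⊔ y)) ^ 2) A.card with h | h
      · exact Or.inl ⟨h2, h1, h⟩
      · exact Or.inr ⟨h2, h1, h⟩
  have h2 : Disjoint (SC A c x) (TC A c x) := by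
    rw [disjoint_left]
    intro y h3 h4
    have h5 := (mem_SC.mp h3).2.2
    have h6 := (mem_TC.mp h4).2.2
    omega
  rw [← card_union_of_disjoint h2, h1, card_erase_of_mem hx]
  have : 0 < A.card := card_pos.mpr ⟨x, hx⟩
  omega

/-- **Few points see two points along long lines.** -/
theorem pair_bound_c {c : ℕ} (hA : ∀ a ∈ A, IsAtom a) (hr : rk (A.sup id) = 4) {t : ℕ}
    (ht : ∀ H, rk H = 3 → (A.filter (· ≤ H)).card ≤ t) {x y : L} (hx : x ∈ A) (hy : y ∈ A)
    (hxy : x ≠ y) : (TC A c x ∩ TC A c y).card ≤ (c + 1) * t := by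
  classical
  have hxa := hA x hx
  have hya := hA y hy
  have hl : rk (x ⊔ y) = 2 := rk_line hxa hya hxy
  have hpl : ∀ q ∈ A, ¬ q ≤ x ⊔ y → rk (x ⊔ y ⊔ q) = 3 := fun q hq h => by
    rw [rk_sup_atom (hA q hq) h, hl]
  -- the points on the line
  have h1 : (A.filter (· ≤ x ⊔ y)).card ≤ t := by
    obtain ⟨z, hz, hzl⟩ : ∃ z ∈ A, ¬ z ≤ x ⊔ y := by
      by_contra hcon
      push Not at hcon
      have h2 : A.sup id ≤ x ⊔ y := Finset.sup_le fun z hz => hcon z hz
      have h3 := rk_mono h2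
      omega
    refine (card_le_card ?_).trans (ht _ (hpl z hz hzl))
    intro p hp
    obtain ⟨h4, h5⟩ := mem_filter.mp hp
    exact mem_filter.mpr ⟨h4, h5.trans le_sup_left⟩
  -- the other points
  set D : Finset L := (TC A c x ∩ TC A c y).filter (fun p => ¬ p ≤ x ⊔ y) with hD
  have hsub : TC A c x ∩ TC A c y ⊆ A.filter (· ≤ x ⊔ y) ∪ D := by
    intro p hp
    rw [mem_union]
    by_cases h : p ≤ x ⊔ y
    · exact Or.inl (mem_filter.mpr ⟨(mem_TC.mp (mem_inter.mp hp).1).1, h⟩)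
    · exact Or.inr (mem_filter.mpr ⟨hp, h⟩)
  have hDm : ∀ p ∈ D, p ∈ A ∧ p ≠ x ∧ p ≠ y ∧ ¬ p ≤ x ⊔ y ∧
      A.card < c * (ee A (x ⊔ p)) ^ 2 ∧ A.card < c * (ee A (y ⊔ p)) ^ 2 := by
    intro p hp
    obtain ⟨h2, h3⟩ := mem_filter.mp hp
    obtain ⟨h4, h5⟩ := mem_inter.mp h2
    exact ⟨(mem_TC.mp h4).1, (mem_TC.mp h4).2.1, (mem_TC.mp h5).2.1, h3, (mem_TC.mp h4).2.2,
      (mem_TC.mp h5).2.2⟩
  let Tr : L → Finset (L × L) := fun p =>
    ((A.filter (· ≤ x ⊔ p)).erase x) ×ˢ ((A.filter (· ≤ y ⊔ p)).erase y)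
  have hTr : ∀ p ∈ D, A.card ≤ c * (Tr p).card := by
    intro p hp
    obtain ⟨-, -, -, -, h5, h6⟩ := hDm p hp
    have h7 : (Tr p).card = ee A (x ⊔ p) * ee A (y ⊔ p) := by
      rw [card_product, card_erase_line hx le_sup_left, card_erase_line hy le_sup_left]
    rw [h7]
    by_contra hcon
    push Not at hcon
    have h8 : (c * (ee A (x ⊔ p) * ee A (y ⊔ p))) ^ 2 < A.card ^ 2 :=
      Nat.pow_lt_pow_left hcon (by norm_num)
    have h9 : A.card ^ 2 < (c * (ee A (x ⊔ p)) ^ 2) * (c * (ee A (y ⊔ p)) ^ 2) := by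
      rw [sq]
      exact Nat.mul_lt_mul'' h5 h6
    nlinarith
  have hdis : ∀ p ∈ D, ∀ p' ∈ D, p ≠ p' → Disjoint (Tr p) (Tr p') := by
    intro p hp p' hp' hne
    obtain ⟨k1, k2, k3, k4, -, -⟩ := hDm p hp
    obtain ⟨m1, m2, m3, m4, -, -⟩ := hDm p' hp'
    rw [disjoint_left]
    rintro ⟨q, r⟩ hq hq'
    rw [mem_product] at hq hq'
    obtain ⟨a1, a2⟩ := hq
    obtain ⟨a3, a4⟩ := hq'
    obtain ⟨b1, b2⟩ := mem_erase.mp a1
    obtain ⟨b3, b4⟩ := mem_filter.mp b2
    obtain ⟨c1, c2⟩ := mem_erase.mp a2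
    obtain ⟨c3, c4⟩ := mem_filter.mp c2
    obtain ⟨d1, d2⟩ := mem_erase.mp a3
    obtain ⟨d3, d4⟩ := mem_filter.mp d2
    obtain ⟨e1, e2⟩ := mem_erase.mp a4
    obtain ⟨e3, e4⟩ := mem_filter.mp e2
    have hqa := hA q b3
    have hra := hA r c3
    have rxp := rk_line hxa (hA p k1) k2.symm
    have ryp := rk_line hya (hA p k1) k3.symm
    have rxp' := rk_line hxa (hA p' m1) m2.symm
    have ryp' := rk_line hya (hA p' m1) m3.symm
    have h2 : x ⊔ p = x ⊔ p' := line_two hxa hqa (Ne.symm b1) le_sup_left b4 rxp le_sup_left d4 rxp'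
    have h3 : y ⊔ p = y ⊔ p' := line_two hya hra (Ne.symm c1) le_sup_left c4 ryp le_sup_left e4 ryp'
    have h4 : x ⊔ p = y ⊔ p := line_two (hA p k1) (hA p' m1) hne le_sup_right
      (by rw [h2]; exact le_sup_right) rxp le_sup_right (by rw [h3]; exact le_sup_right) ryp
    apply k4
    have h5 : x ⊔ y = x ⊔ p := line_of hxa hya hxy le_sup_left (by rw [h4]; exact le_sup_left) rxp
    rw [h5]
    exact le_sup_right
  have hun : ∑ p ∈ D, (Tr p).card ≤ A.card * t := by
    rw [← card_biUnion hdis]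
    have h2 : D.biUnion Tr ⊆ (A.filter (fun q => ¬ q ≤ x ⊔ y)).biUnion (fun q =>
        ({q} : Finset L) ×ˢ A.filter (· ≤ x ⊔ y ⊔ q)) := by
      rintro ⟨q, r⟩ hqr
      rw [mem_biUnion] at hqr ⊢
      obtain ⟨p, hp, hqr⟩ := hqr
      obtain ⟨k1, k2, k3, k4, -, -⟩ := hDm p hp
      rw [mem_product] at hqr
      obtain ⟨a1, a2⟩ := hqr
      obtain ⟨b1, b2⟩ := mem_erase.mp a1
      obtain ⟨b3, b4⟩ := mem_filter.mp b2
      obtain ⟨c1, c2⟩ := mem_erase.mp a2
      obtain ⟨c3, c4⟩ := mem_filter.mp c2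
      have rxp := rk_line hxa (hA p k1) k2.symm
      have h3 : x ⊔ q = x ⊔ p := line_of hxa (hA q b3) (Ne.symm b1) le_sup_left b4 rxp
      have h4 : ¬ q ≤ x ⊔ y := by
        intro h
        apply k4
        have h5 : x ⊔ q = x ⊔ y := line_of hxa (hA q b3) (Ne.symm b1) le_sup_left h hl
        rw [← h5, h3]
        exact le_sup_right
      refine ⟨q, mem_filter.mpr ⟨b3, h4⟩, ?_⟩
      rw [mem_product]
      refine ⟨mem_singleton_self q, mem_filter.mpr ⟨c3, c4.trans ?_⟩⟩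
      have h5 : p ≤ x ⊔ q := by rw [h3]; exact le_sup_right
      exact sup_le (le_sup_right.trans le_sup_left)
        (h5.trans (sup_le (le_sup_left.trans le_sup_left) le_sup_right))
    refine (card_le_card h2).trans ?_
    refine card_biUnion_le.trans ?_
    have h3 : ∀ q ∈ A.filter (fun q => ¬ q ≤ x ⊔ y),
        (({q} : Finset L) ×ˢ A.filter (· ≤ x ⊔ y ⊔ q)).card ≤ t := by
      intro q hq
      obtain ⟨h4, h5⟩ := mem_filter.mp hq
      rw [card_product, card_singleton, one_mul]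
      exact ht _ (hpl q h4 h5)
    refine (sum_le_card_nsmul _ _ _ h3).trans ?_
    rw [smul_eq_mul]
    exact Nat.mul_le_mul_right _ (card_le_card (filter_subset _ _))
  have hDc : D.card ≤ c * t := by
    have hpos : 0 < A.card := card_pos.mpr ⟨x, hx⟩
    have h2 : D.card * A.card ≤ ∑ p ∈ D, c * (Tr p).card := by
      rw [← smul_eq_mul]
      exact card_nsmul_le_sum _ _ _ hTr
    rw [← mul_sum] at h2
    have h3 : D.card * A.card ≤ (c * t) * A.card := by nlinarith
    exact Nat.le_of_mul_le_mul_right h3 hpos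
  have h2 := (card_le_card hsub).trans (card_union_le _ _)
  have h9 : (c + 1) * t = c * t + t := by ring
  omega

/-- Sets with small pairwise intersections. -/
theorem sum_card_le (s : Finset L) (T : L → Finset L) {B : ℕ}
    (h : ∀ i ∈ s, ∀ j ∈ s, i ≠ j → (T i ∩ T j).card ≤ B) :
    2 * ∑ i ∈ s, (T i).card ≤ 2 * (s.biUnion T).card + s.card ^ 2 * B := by
  classical
  induction s using Finset.induction_on with
  | empty => simp
  | insert a s ha ih =>
    have h1 := ih fun i hi j hj => h i (mem_insert_of_mem hi) j (mem_insert_of_mem hj)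
    rw [sum_insert ha, biUnion_insert, card_insert_of_notMem ha]
    have h2 := card_union_add_card_inter (T a) (s.biUnion T)
    have h3 : (T a ∩ s.biUnion T).card ≤ s.card * B := by
      rw [inter_biUnion]
      refine card_biUnion_le.trans ?_
      rw [← smul_eq_mul]
      exact sum_le_card_nsmul _ _ _ fun j hj => h a (mem_insert_self a s) j (mem_insert_of_mem hj)
        (fun e => ha (e ▸ hj))
    nlinarith

/-- Not three points see half of the points along long lines. -/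
theorem three_bound_c {c : ℕ} (hA : ∀ a ∈ A, IsAtom a) (hr : rk (A.sup id) = 4) {t : ℕ}
    (ht : ∀ H, rk H = 3 → (A.filter (· ≤ H)).card ≤ t) (hn : 6 * ((c + 1) * t) + 3 < A.card)
    {x y z : L} (hx : x ∈ A) (hy : y ∈ A) (hz : z ∈ A)
    (hxy : x ≠ y) (hxz : x ≠ z) (hyz : y ≠ z) (h1 : A.card ≤ 2 * (TC A c x).card + 1)
    (h2 : A.card ≤ 2 * (TC A c y).card + 1) (h3 : A.card ≤ 2 * (TC A c z).card + 1) : False := by
  have k1 := pair_bound_c (c := c) hA hr ht hx hy hxy
  have k2 := pair_bound_c (c := c) hA hr ht hx hz hxz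
  have k3 := pair_bound_c (c := c) hA hr ht hy hz hyz
  have m1 := card_union_add_card_inter (TC A c x) (TC A c y)
  have m2 := card_union_add_card_inter (TC A c x ∪ TC A c y) (TC A c z)
  have m3 : ((TC A c x ∪ TC A c y) ∩ TC A c z).card ≤
      (TC A c x ∩ TC A c z).card + (TC A c y ∩ TC A c z).card := by
    rw [union_inter_distrib_right]
    exact card_union_le _ _
  have m4 : ((TC A c x ∪ TC A c y) ∪ TC A c z).card ≤ A.card := by
    apply card_le_card
    intro p hp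
    rw [mem_union, mem_union] at hp
    rcases hp with (hp | hp) | hp <;> exact (mem_TC.mp hp).1
  omega

/-- Few points see `n / (4 k)` points along long lines (`c = 16 k`). -/
theorem exc_bound {k : ℕ} (hk : 1 ≤ k) (hA : ∀ a ∈ A, IsAtom a) (hr : rk (A.sup id) = 4) {t : ℕ}
    (ht : ∀ H, rk H = 3 → (A.filter (· ≤ H)).card ≤ t) (hn : 1000 * k ^ 3 * t ≤ A.card)
    (hn0 : 0 < A.card) :
    (A.filter (fun x => A.card < 4 * k * (TC A (16 * k) x).card)).card < 8 * k := by
  classical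
  by_contra hcon
  push Not at hcon
  obtain ⟨E, hE, hEc⟩ := exists_subset_card_eq hcon
  have hEm : ∀ x ∈ E, x ∈ A ∧ A.card < 4 * k * (TC A (16 * k) x).card := fun x hx =>
    mem_filter.mp (hE hx)
  have h1 := sum_card_le E (fun x => TC A (16 * k) x) (B := (16 * k + 1) * t)
    fun i hi j hj hij => pair_bound_c hA hr ht (hEm i hi).1 (hEm j hj).1 hij
  have h2 : (E.biUnion (fun x => TC A (16 * k) x)).card ≤ A.card := by
    apply card_le_card
    intro p hp
    obtain ⟨x, -, hx⟩ := mem_biUnion.mp hp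
    exact (mem_TC.mp hx).1
  have h3 : E.card * A.card ≤ ∑ x ∈ E, 4 * k * (TC A (16 * k) x).card := by
    rw [← smul_eq_mul]
    exact card_nsmul_le_sum _ _ _ fun x hx => (hEm x hx).2.le
  rw [← mul_sum, hEc] at h3
  rw [hEc] at h1
  have h4 : 2 * A.card ≤ ∑ x ∈ E, (TC A (16 * k) x).card := by
    have h5 : (4 * k) * (2 * A.card) ≤ (4 * k) * ∑ x ∈ E, (TC A (16 * k) x).card := by
      calc (4 * k) * (2 * A.card) = 8 * k * A.card := by ring
        _ ≤ _ := h3
    exact Nat.le_of_mul_le_mul_left h5 (by omega)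
  have h6 : (8 * k) ^ 2 * ((16 * k + 1) * t) ≤ 1088 * (k ^ 3 * t) := by
    have h7 : 16 * k + 1 ≤ 17 * k := by omega
    calc (8 * k) ^ 2 * ((16 * k + 1) * t) ≤ (8 * k) ^ 2 * ((17 * k) * t) :=
          Nat.mul_le_mul_left _ (Nat.mul_le_mul_right _ h7)
      _ = 1088 * (k ^ 3 * t) := by ring
  have h8 : 1000 * (k ^ 3 * t) ≤ A.card := by
    calc 1000 * (k ^ 3 * t) = 1000 * k ^ 3 * t := by ring
      _ ≤ _ := hn
  omega

end

end Pool.Agent.Helper63.CR
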