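import Pool.Agent.Helper63.CR.Sharp1

/-!
# MP_47cd0b: rank four, small planes, lines of any length, sharp constant (numbers, pairs)
-/

set_option autoImplicit false
set_option linter.unusedSectionVars false

namespace Pool.Agent.Helper63.CR

open Finset Pool.Agent.Helper28.BPack Pool.Agent.Helper61.Motz Pool.Agent.Helper38.Thick

variable {L : Type} [Lattice L] [BoundedOrder L] [Finite L] [IsUpperModularLattice L]

/-! ### numbers -/

theorem numR {κ N r : ℝ} (hκ : 0 < κ) (hN : 1000000 ≤ κ ^ 3 * N) (hr2 : r ^ 2 = κ * N / 16) :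
    r ≤ κ ^ 2 * N / 4000 := by
  have hN0 : 0 < N := by
    by_contra h
    push Not at h
    have : κ ^ 3 * N ≤ 0 := mul_nonpos_of_nonneg_of_nonpos (by positivity) h
    linarith
  apply le_of_sq_le_sq _ (by positivity)
  rw [hr2]
  have h1 : κ * N * 1000000 ≤ κ * N * (κ ^ 3 * N) :=
    mul_le_mul_of_nonneg_left hN (by positivity)
  nlinarith

theorem numA {κ N r t σ Z : ℝ} (hκ : 0 < κ) (hκ1 : κ ≤ 1) (hN : 1000000 ≤ κ ^ 3 * N)
    (hr0 : 0 ≤ r) (hr2 : r ^ 2 = κ * N / 16) (ht0 : 0 ≤ t) (ht : t ≤ κ ^ 3 * N / 1000)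
    (hσ : N - 1 - κ * N / 4 ≤ σ) (hσN : σ ≤ N) (h : σ * σ ≤ Z + 33 * r * σ + 64 * t ^ 2) :
    N ^ 2 * (1 - 0.51 * κ) ≤ Z := by
  have hr := numR hκ hN hr2
  have hk3 : κ ^ 3 ≤ 1 := pow_le_one₀ hκ.le hκ1
  have hN0 : 1000000 ≤ N := by
    by_contra h
    push Not at h
    nlinarith [pow_pos hκ 3]
  have k2 : κ ^ 2 ≤ κ := by nlinarith
  have k3 : κ ^ 3 ≤ κ := by nlinarith [mul_nonneg hκ.le hκ.le]
  have hτ : 0 ≤ N - 1 - κ * N / 4 := by nlinarith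
  have e1 : (N - 1 - κ * N / 4) ^ 2 ≤ σ * σ := by nlinarith
  have e2 : N ^ 2 * (1 - κ / 2) - 2 * N ≤ (N - 1 - κ * N / 4) ^ 2 := by
    nlinarith [mul_nonneg hκ.le (show (0 : ℝ) ≤ N by linarith), sq_nonneg (κ * N)]
  have e3 : 33 * r * σ ≤ 0.00825 * κ * N ^ 2 := by
    have h1 : r * σ ≤ (κ ^ 2 * N / 4000) * N :=
      mul_le_mul hr hσN (hτ.trans hσ) (by positivity)
    have h2 : κ ^ 2 * N * N ≤ κ * N * N := by
      have := mul_le_mul_of_nonneg_right k2 (show (0 : ℝ) ≤ N * N by positivity)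
      nlinarith
    nlinarith
  have e4 : 64 * t ^ 2 ≤ 0.000064 * κ * N ^ 2 := by
    have h1 : t ≤ κ * N / 1000 := ht.trans (by
      have := mul_le_mul_of_nonneg_right k3 (show (0 : ℝ) ≤ N by linarith)
      linarith)
    have h2 : t ^ 2 ≤ (κ * N / 1000) ^ 2 := pow_le_pow_left₀ ht0 h1 2
    have h3 : κ ^ 2 * (N * N) ≤ κ * (N * N) :=
      mul_le_mul_of_nonneg_right k2 (by positivity)
    nlinarith
  have e5 : 2 * N ≤ 0.000002 * κ * N ^ 2 := by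
    have h1 : N * 1000000 ≤ N * (κ ^ 3 * N) := mul_le_mul_of_nonneg_left hN (by linarith)
    have h3 : κ ^ 3 * (N * N) ≤ κ * (N * N) :=
      mul_le_mul_of_nonneg_right k3 (by positivity)
    nlinarith
  have e6 : 0 ≤ κ * N ^ 2 := by positivity
  nlinarith

theorem numB {κ N r t σ Z : ℝ} (hκ : 0 < κ) (hκ1 : κ ≤ 1) (hN : 1000000 ≤ κ ^ 3 * N)
    (hr0 : 0 ≤ r) (hr2 : r ^ 2 = κ * N / 16) (ht0 : 0 ≤ t) (ht : t ≤ κ ^ 3 * N / 1000)
    (hσ : N ≤ 2 * σ) (hσN : σ ≤ N) (h : σ * σ ≤ Z + 33 * r * σ + 64 * t ^ 2) :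
    N ^ 2 / 5 ≤ Z := by
  have hr := numR hκ hN hr2
  have hk3 : κ ^ 3 ≤ 1 := pow_le_one₀ hκ.le hκ1
  have hk2 : κ ^ 2 ≤ 1 := pow_le_one₀ hκ.le hκ1
  have hN0 : 1000000 ≤ N := by
    by_contra h
    push Not at h
    nlinarith [pow_pos hκ 3]
  have hr1 : r ≤ N / 4000 := hr.trans (by
    have := mul_le_mul_of_nonneg_right hk2 (show (0 : ℝ) ≤ N by linarith)
    linarith)
  have ht1 : t ≤ N / 1000 := ht.trans (by
    have := mul_le_mul_of_nonneg_right hk3 (show (0 : ℝ) ≤ N by linarith)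
    linarith)
  have h2 : t ^ 2 ≤ (N / 1000) ^ 2 := pow_le_pow_left₀ ht0 ht1 2
  have h3 : (N / 2) * (N / 2 - 33 * r) ≤ σ * (σ - 33 * r) := by
    apply mul_le_mul (by linarith) (by linarith) (by linarith) (by linarith)
  nlinarith

theorem numC {κ N r t k e1 e2 h l1 l2 l3 : ℝ} (hκ : 0 < κ) (hκ1 : κ ≤ 1) (hk : k * κ = 1)
    (hN : 1000000 ≤ κ ^ 3 * N)
    (hr0 : 0 ≤ r) (hr2 : r ^ 2 = κ * N / 16) (ht0 : 0 ≤ t) (ht : t ≤ κ ^ 3 * N / 1000)
    (ht3 : k * t ^ 3 + N ^ 2 ≤ k * N ^ 2)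
    (he1 : e1 ≤ r) (he2 : e2 ≤ r) (he10 : 0 ≤ e1) (he20 : 0 ≤ e2) (hh0 : 0 ≤ h) (hh : h ≤ t)
    (k1 : l1 * (N ^ 2 * (1 - 0.51 * κ)) ≤ (e1 + 1 + 40 * k) * (2 * e1 * N))
    (k2 : l2 * (N ^ 2 * (1 - 0.51 * κ)) ≤ (e2 + 1 + 40 * k) * (2 * e2 * N))
    (k3 : l3 * (N ^ 2 * (1 - 0.51 * κ)) ≤ (h + 40 * k) * h ^ 2) : l1 + l2 + l3 ≤ 1 := by
  have hr := numR hκ hN hr2
  have hk0 : 0 < k := by
    by_contra hc
    push Not at hc
    nlinarith
  have hN0 : 1000000 ≤ N := by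
    have hk3 : κ ^ 3 ≤ 1 := pow_le_one₀ hκ.le hκ1
    by_contra h
    push Not at h
    nlinarith [pow_pos hκ 3]
  have c2 : κ ^ 2 ≤ κ := by nlinarith
  have c3 : κ ^ 3 ≤ κ ^ 2 := by nlinarith [mul_nonneg hκ.le hκ.le]
  have hline : ∀ e : ℝ, 0 ≤ e → e ≤ r →
      (e + 1 + 40 * k) * (2 * e * N) ≤ 0.1455 * κ * N ^ 2 := by
    intro e he0 he
    have h1 : (e + 1 + 40 * k) * (2 * e * N) ≤ (r + 1 + 40 * k) * (2 * r * N) := by
      apply mul_le_mul (by linarith) _ (by positivity) (by positivity)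
      exact mul_le_mul_of_nonneg_right (by linarith) (by linarith)
    have h2 : (r + 1 + 40 * k) * (2 * r * N) = 2 * r ^ 2 * N + 2 * r * N + 80 * (k * r) * N := by
      ring
    have h3 : k * r ≤ κ * N / 4000 := by
      have h4 := mul_le_mul_of_nonneg_left hr hk0.le
      have h5 : k * (κ ^ 2 * N / 4000) = (k * κ) * κ * N / 4000 := by ring
      rw [h5, hk, one_mul] at h4
      exact h4
    have h4 : r ≤ κ * N / 4000 := hr.trans (by
      have := mul_le_mul_of_nonneg_right c2 (show (0 : ℝ) ≤ N by linarith)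
      linarith)
    have h5 := mul_le_mul_of_nonneg_right h3 (show (0 : ℝ) ≤ N by linarith)
    have h6 := mul_le_mul_of_nonneg_right h4 (show (0 : ℝ) ≤ N by linarith)
    rw [h2, hr2] at h1
    nlinarith
  have e3 := hline e1 he10 he1
  have e4 := hline e2 he20 he2
  have e5 : (h + 40 * k) * h ^ 2 ≤ N ^ 2 - κ * N ^ 2 + 0.00004 * κ * N ^ 2 := by
    have h1 : (h + 40 * k) * h ^ 2 ≤ (t + 40 * k) * t ^ 2 :=
      mul_le_mul (by linarith) (pow_le_pow_left₀ hh0 hh 2) (by positivity) (by positivity)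
    have h2 : t ^ 3 ≤ N ^ 2 - κ * N ^ 2 := by
      have h3 := mul_le_mul_of_nonneg_left ht3 hκ.le
      have h4 : κ * (k * t ^ 3 + N ^ 2) = (k * κ) * t ^ 3 + κ * N ^ 2 := by ring
      have h5 : κ * (k * N ^ 2) = (k * κ) * N ^ 2 := by ring
      rw [h4, h5, hk] at h3
      linarith
    have h3 : k * t ^ 2 ≤ κ * N ^ 2 / 1000000 := by
      have h4 : t ≤ κ ^ 2 * N / 1000 := ht.trans (by
        have := mul_le_mul_of_nonneg_right c3 (show (0 : ℝ) ≤ N by linarith)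
        linarith)
      have h5 : t ^ 2 ≤ (κ ^ 2 * N / 1000) ^ 2 := pow_le_pow_left₀ ht0 h4 2
      have h6 := mul_le_mul_of_nonneg_left h5 hk0.le
      have h7 : k * (κ ^ 2 * N / 1000) ^ 2 = (k * κ) * κ ^ 3 * N ^ 2 / 1000000 := by ring
      rw [h7, hk, one_mul] at h6
      have h8 : κ ^ 3 * N ^ 2 ≤ κ * N ^ 2 :=
        mul_le_mul_of_nonneg_right (c3.trans c2) (by positivity)
      linarith
    have h4 : (t + 40 * k) * t ^ 2 = t ^ 3 + 40 * (k * t ^ 2) := by ring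
    rw [h4] at h1
    linarith
  have hN2 : 0 < N ^ 2 * (1 - 0.51 * κ) := by
    apply mul_pos (by positivity)
    linarith
  have e6 : 0 ≤ κ * N ^ 2 := by positivity
  have e8 : (l1 + l2 + l3) * (N ^ 2 * (1 - 0.51 * κ)) ≤ 1 * (N ^ 2 * (1 - 0.51 * κ)) := by
    nlinarith
  exact le_of_mul_le_mul_right e8 hN2

end Pool.Agent.Helper63.CR
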